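import Mathlib

/-!
# Counting lemmas for random colourings (helper466)

* `exists_cover` : the union-bound covering lemma.
* `count_event` : the number of maps `ω : G → Fin m` with `ω a = 0` and `ω ≠ 0` on `F`.
-/

namespace H466R2

open Finset

/-- Union bound: if each `x : X` is served by at least `α |Ω|` of the `ω : Ω` and
`|X| (1 - α)^k < 1`, then some `k` of the `ω` serve all of `X`. -/
theorem exists_cover {Ω X : Type*} [Fintype Ω] [Fintype X] [DecidableEq Ω] [Nonempty Ω]
    (P : Ω → X → Prop) [∀ ω x, Decidable (P ω x)] (α : ℝ)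
    (hα : ∀ x, α * (Fintype.card Ω : ℝ) ≤ ((univ.filter (fun ω => P ω x)).card : ℝ))
    (k : ℕ) (hk : (Fintype.card X : ℝ) * (1 - α) ^ k < 1) :
    ∃ f : Fin k → Ω, ∀ x, ∃ j, P (f j) x := by
  classical
  by_contra hcon
  push Not at hcon
  have hΩ : (0 : ℝ) < (Fintype.card Ω : ℝ) := by
    exact_mod_cast Fintype.card_pos
  -- every `f` lies in one of the bad sets
  have hcover : (univ : Finset (Fin k → Ω)) ⊆
      (univ : Finset X).biUnion
        (fun x => Fintype.piFinset (fun _ : Fin k => univ.filter (fun ω => ¬ P ω x))) := by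
    intro f _
    obtain ⟨x, hx⟩ := hcon f
    rw [mem_biUnion]
    refine ⟨x, mem_univ _, ?_⟩
    rw [Fintype.mem_piFinset]
    intro j
    simp [hx j]
  have hcard := (card_le_card hcover).trans card_biUnion_le
  rw [card_univ, Fintype.card_fun, Fintype.card_fin] at hcard
  have hbad : ∀ x, ((univ.filter (fun ω => ¬ P ω x)).card : ℝ) ≤
      (1 - α) * (Fintype.card Ω : ℝ) := by
    intro x
    have h1 := hα x
    have h2 : (univ.filter (fun ω => P ω x)).card + (univ.filter (fun ω => ¬ P ω x)).card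
        = Fintype.card Ω := by
      rw [card_filter_add_card_filter_not, card_univ]
    have h3 : ((univ.filter (fun ω => P ω x)).card : ℝ)
        + ((univ.filter (fun ω => ¬ P ω x)).card : ℝ) = (Fintype.card Ω : ℝ) := by
      exact_mod_cast h2
    linarith
  have hcard' : ((Fintype.card Ω : ℝ)) ^ k ≤
      ∑ x : X, ((univ.filter (fun ω => ¬ P ω x)).card : ℝ) ^ k := by
    have : ((Fintype.card Ω ^ k : ℕ) : ℝ) ≤
        ((∑ x : X, (Fintype.piFinset
          (fun _ : Fin k => univ.filter (fun ω => ¬ P ω x))).card : ℕ) : ℝ) := by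
      exact_mod_cast hcard
    push_cast at this
    refine this.trans (le_of_eq ?_)
    refine Finset.sum_congr rfl fun x _ => ?_
    rw [Fintype.card_piFinset]
    push_cast
    simp
  have hsum : ∑ x : X, ((univ.filter (fun ω => ¬ P ω x)).card : ℝ) ^ k ≤
      ∑ _x : X, ((1 - α) * (Fintype.card Ω : ℝ)) ^ k := by
    refine Finset.sum_le_sum fun x _ => ?_
    exact pow_le_pow_left₀ (Nat.cast_nonneg _) (hbad x) k
  rw [Finset.sum_const, card_univ, nsmul_eq_mul, mul_pow] at hsum
  have hfin := hcard'.trans hsum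
  have hpos : (0 : ℝ) < (Fintype.card Ω : ℝ) ^ k := pow_pos hΩ k
  have : (Fintype.card Ω : ℝ) ^ k * 1 ≤
      (Fintype.card Ω : ℝ) ^ k * ((Fintype.card X : ℝ) * (1 - α) ^ k) := by
    calc (Fintype.card Ω : ℝ) ^ k * 1 = (Fintype.card Ω : ℝ) ^ k := mul_one _
      _ ≤ _ := hfin
      _ = _ := by ring
  have := le_of_mul_le_mul_left this hpos
  linarith

theorem quarter_le (m : ℕ) (hm : 2 ≤ m) : (1 : ℝ) / 4 ≤ (1 - 1 / (m : ℝ)) ^ m := by
  have hm0 : (0 : ℝ) < m := by positivity
  have hm2 : (2 : ℝ) ≤ m := by exact_mod_cast hm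
  have h1 : (1 : ℝ) / m ≤ 1 / 2 := by
    apply one_div_le_one_div_of_le <;> linarith
  have hbase : (0 : ℝ) ≤ 1 - 1 / (m : ℝ) := by linarith
  have hb := one_add_mul_self_le_rpow_one_add (s := -(1 / (m : ℝ))) (by linarith)
    (p := (m : ℝ) / 2) (by linarith)
  have hb' : (1 : ℝ) / 2 ≤ (1 - 1 / (m : ℝ)) ^ ((m : ℝ) / 2) := by
    have e : 1 + (m : ℝ) / 2 * -(1 / (m : ℝ)) = 1 / 2 := by
      field_simp; norm_num
    rw [e] at hb
    simpa [sub_eq_add_neg] using hb
  have hsq : ((1 - 1 / (m : ℝ)) ^ ((m : ℝ) / 2)) ^ 2 = (1 - 1 / (m : ℝ)) ^ m := by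
    rw [← Real.rpow_natCast, ← Real.rpow_mul hbase]
    have : (m : ℝ) / 2 * ((2 : ℕ) : ℝ) = (m : ℝ) := by push_cast; ring
    rw [this, Real.rpow_natCast]
  rw [← hsq]
  nlinarith [hb']

/-- The number of `ω : G → Fin m` with `ω a = 0` and `ω f ≠ 0` for `f ∈ F` is at least
`m^{|G|} / (4 m)` when `a ∉ F` and `|F| ≤ m`. -/
theorem count_event {G : Type*} [Fintype G] [DecidableEq G] (m : ℕ) (hm : 2 ≤ m)
    [NeZero m] (a : G) (F : Finset G) (ha : a ∉ F) (hF : F.card ≤ m) :
    (1 / (4 * (m : ℝ))) * (m : ℝ) ^ (Fintype.card G) ≤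
      ((univ.filter (fun ω : G → Fin m => ω a = 0 ∧ ∀ f ∈ F, ω f ≠ 0)).card : ℝ) := by
  classical
  have hm0 : (0 : ℝ) < m := by positivity
  have hm2 : (2 : ℝ) ≤ m := by exact_mod_cast hm
  set S : G → Finset (Fin m) := fun g =>
    if g = a then {0} else if g ∈ F then {0}ᶜ else univ with hS
  have hset : univ.filter (fun ω : G → Fin m => ω a = 0 ∧ ∀ f ∈ F, ω f ≠ 0)
      = Fintype.piFinset S := by
    ext ω
    simp only [mem_filter, mem_univ, true_and, Fintype.mem_piFinset, hS]
    constructor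
    · rintro ⟨h1, h2⟩ g
      by_cases hga : g = a
      · subst hga; simp [h1]
      · by_cases hgF : g ∈ F
        · simp [hga, hgF, h2 g hgF]
        · simp [hga, hgF]
    · intro h
      refine ⟨?_, ?_⟩
      · have := h a
        simpa using this
      · intro f hf
        have hfa : f ≠ a := fun e => ha (e ▸ hf)
        have := h f
        simpa [hfa, hf] using this
  rw [hset, Fintype.card_piFinset]
  push_cast
  -- weights
  set w : G → ℝ := fun g => if g = a then 1 / (m : ℝ) else if g ∈ F then 1 - 1 / (m : ℝ) else 1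
    with hw
  have hSw : ∀ g, ((S g).card : ℝ) = (m : ℝ) * w g := by
    intro g
    simp only [hS, hw]
    by_cases hga : g = a
    · simp [hga]
    · by_cases hgF : g ∈ F
      · simp only [hga, hgF, if_true, if_false]
        rw [card_compl, Fintype.card_fin, card_singleton, Nat.cast_sub (by omega)]
        field_simp
        simp
      · simp [hga, hgF]
  rw [Finset.prod_congr rfl (fun g _ => hSw g), Finset.prod_mul_distrib, Finset.prod_const,
    card_univ]
  have hprod : ∏ g : G, w g = (1 / (m : ℝ)) * (1 - 1 / (m : ℝ)) ^ F.card := by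
    have h1 : ∏ g : G, w g = ∏ g ∈ insert a F, w g := by
      symm
      apply Finset.prod_subset (subset_univ _)
      intro g _ hg
      rw [mem_insert, not_or] at hg
      simp [hw, hg.1, hg.2]
    rw [h1, Finset.prod_insert ha]
    have h2 : w a = 1 / (m : ℝ) := by simp [hw]
    have h3 : ∏ g ∈ F, w g = ∏ _g ∈ F, (1 - 1 / (m : ℝ)) := by
      apply Finset.prod_congr rfl
      intro g hg
      have hga : g ≠ a := fun e => ha (e ▸ hg)
      simp [hw, hga, hg]
    rw [h2, h3, Finset.prod_const]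
  rw [hprod]
  have h1 : (1 : ℝ) / m ≤ 1 / 2 := by
    apply one_div_le_one_div_of_le <;> linarith
  have hpow : (1 - 1 / (m : ℝ)) ^ m ≤ (1 - 1 / (m : ℝ)) ^ F.card := by
    apply pow_le_pow_of_le_one (by linarith) _ hF
    have : (0 : ℝ) ≤ 1 / m := by positivity
    linarith
  have hq := (quarter_le m hm).trans hpow
  have hGpos : (0 : ℝ) < (m : ℝ) ^ Fintype.card G := pow_pos hm0 _
  have : (1 / (4 * (m : ℝ))) ≤ (1 / (m : ℝ)) * (1 - 1 / (m : ℝ)) ^ F.card := by
    calc (1 / (4 * (m : ℝ))) = (1 / (m : ℝ)) * (1 / 4) := by field_simp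
      _ ≤ _ := by
        apply mul_le_mul_of_nonneg_left hq
        positivity
  calc (1 / (4 * (m : ℝ))) * (m : ℝ) ^ (Fintype.card G)
      ≤ ((1 / (m : ℝ)) * (1 - 1 / (m : ℝ)) ^ F.card) * (m : ℝ) ^ (Fintype.card G) := by
        apply mul_le_mul_of_nonneg_right this hGpos.le
    _ = _ := by ring

end H466R2
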