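import Mathlib
import Pool.Agent.H466R2.ChiProb

/-!
# Random periodic point sets with a kill rule (helper466)

Integer points `p` are *good* for a periodic set `Y` of centres when `p` lies near a centre `y`
that no other centre kills.  `core` : few random sets `Y` make every integer point good.
-/

namespace H466R2

open Finset

variable {n : ℕ}

/-- Reduction modulo `M`. -/
def red (M : ℕ) (z : Fin n → ℤ) : Fin n → ZMod M := fun i => (z i : ZMod M)

theorem red_add (M : ℕ) (z w : Fin n → ℤ) : red M (z + w) = red M z + red M w := by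
  funext i; simp [red]

theorem red_sub (M : ℕ) (z w : Fin n → ℤ) : red M (z - w) = red M z - red M w := by
  funext i; simp [red]

/-- `p` is good for the set `Y` of (periodic) centres. -/
def Good (M : ℕ) (V : Finset (Fin n → ℤ)) (kill : (Fin n → ℤ) → (Fin n → ℤ) → Prop)
    (Y : Set (Fin n → ZMod M)) (p : Fin n → ℤ) : Prop :=
  ∃ y : Fin n → ℤ, red M y ∈ Y ∧ p - y ∈ V ∧
    ∀ y' : Fin n → ℤ, red M y' ∈ Y → y' ≠ y → ¬ kill (p - y) (y' - y)

theorem Good.congr {M : ℕ} {V : Finset (Fin n → ℤ)}
    {kill : (Fin n → ℤ) → (Fin n → ℤ) → Prop} {Y : Set (Fin n → ZMod M)}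
    {p p' : Fin n → ℤ} (h : red M p = red M p') (hg : Good M V kill Y p) :
    Good M V kill Y p' := by
  obtain ⟨y, hy, hV, hk⟩ := hg
  have hd : red M (p' - p) = 0 := by rw [red_sub, h, sub_self]
  refine ⟨y + (p' - p), ?_, ?_, ?_⟩
  · rw [red_add, hd, add_zero]; exact hy
  · have : p' - (y + (p' - p)) = p - y := by abel
    rw [this]; exact hV
  · intro y' hy' hne
    have e1 : p' - (y + (p' - p)) = p - y := by abel
    have e2 : y' - (y + (p' - p)) = (y' - (p' - p)) - y := by abel
    rw [e1, e2]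
    apply hk
    · rw [red_sub, hd, sub_zero]; exact hy'
    · intro e
      apply hne
      rw [← e]; abel

/-- A lift of residues to integers. -/
def lift (M : ℕ) (g : Fin n → ZMod M) : Fin n → ℤ := fun i => ((g i).val : ℤ)

theorem red_lift (M : ℕ) [NeZero M] (g : Fin n → ZMod M) : red M (lift M g) = g := by
  funext i
  simp [red, lift]

theorem core (M : ℕ) [NeZero M] (V : Finset (Fin n → ℤ))
    (kill : (Fin n → ℤ) → (Fin n → ℤ) → Prop) (m : ℕ) (hm : 2 ≤ m)
    (hF : ∀ v ∈ V, ∃ F : Finset (Fin n → ℤ), F.card ≤ m ∧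
      (∀ z, z ≠ 0 → kill v z → z ∈ F) ∧ ∀ z ∈ F, red M z ≠ 0)
    (hV : ∀ v ∈ V, ∀ v' ∈ V, v ≠ v' → kill v (v - v') ∨ kill v' (v' - v))
    (α : ℝ) (hα : α ≤ (V.card : ℝ) / (4 * m))
    (k : ℕ) (hk : (M : ℝ) ^ n * (1 - α) ^ k < 1) :
    ∃ Y : Fin k → Set (Fin n → ZMod M), ∀ p, ∃ j, Good M V kill (Y j) p := by
  classical
  have : NeZero m := ⟨by omega⟩
  have hm0 : (0 : ℝ) < m := by
    have : (2 : ℝ) ≤ m := by exact_mod_cast hm
    linarith
  choose! F hFc hFk hFr using hF
  let Ω := (Fin n → ZMod M) → Fin m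
  set P : Ω → (Fin n → ZMod M) → Prop := fun ω x => Good M V kill {g | ω g = 0} (lift M x)
    with hP
  have hcardΩ : (Fintype.card Ω : ℝ) = (m : ℝ) ^ Fintype.card (Fin n → ZMod M) := by
    change ((Fintype.card ((Fin n → ZMod M) → Fin m) : ℕ) : ℝ) = _
    rw [Fintype.card_fun (α := Fin n → ZMod M) (β := Fin m), Fintype.card_fin]; push_cast; rfl
  have hcardX : (Fintype.card (Fin n → ZMod M) : ℝ) = (M : ℝ) ^ n := by
    rw [Fintype.card_fun, ZMod.card, Fintype.card_fin]; push_cast; rfl
  have key : ∀ x, α * (Fintype.card Ω : ℝ) ≤ ((univ.filter (fun ω => P ω x)).card : ℝ) := by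
    intro x
    set p := lift M x with hp
    -- the events
    set A : (Fin n → ℤ) → Finset Ω := fun v =>
      univ.filter (fun ω : Ω => ω (red M (p - v)) = 0 ∧
        ∀ f ∈ (F v).image (fun z => red M (p - v + z)), ω f ≠ 0) with hA
    have hsub : V.biUnion A ⊆ univ.filter (fun ω => P ω x) := by
      intro ω hω
      rw [mem_biUnion] at hω
      obtain ⟨v, hv, hω⟩ := hω
      simp only [hA, mem_filter, mem_univ, true_and] at hω
      obtain ⟨h0, hf⟩ := hω
      simp only [mem_filter, mem_univ, true_and, hP]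
      refine ⟨p - v, h0, ?_, ?_⟩
      · have : lift M x - (p - v) = v := by rw [hp]; abel
        rw [this]; exact hv
      · intro y' hy' hne hkill
        have e : lift M x - (p - v) = v := by rw [hp]; abel
        rw [e] at hkill
        have hz0 : y' - (p - v) ≠ 0 := sub_ne_zero.mpr hne
        have hmem := hFk v hv _ hz0 hkill
        have := hf (red M y') (by
          rw [mem_image]
          refine ⟨_, hmem, ?_⟩
          congr 1
          abel)
        exact this hy'
    have hdisj : (V : Set (Fin n → ℤ)).PairwiseDisjoint A := by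
      intro v hv v' hv' hne
      rw [Function.onFun, disjoint_left]
      intro ω hω hω'
      simp only [hA, mem_filter, mem_univ, true_and] at hω hω'
      rcases hV v hv v' hv' hne with h | h
      · have hmem := hFk v hv _ (sub_ne_zero.mpr hne) h
        refine hω.2 (red M (p - v')) ?_ hω'.1
        rw [mem_image]
        exact ⟨_, hmem, by congr 1; abel⟩
      · have hmem := hFk v' hv' _ (sub_ne_zero.mpr (Ne.symm hne)) h
        refine hω'.2 (red M (p - v)) ?_ hω.1
        rw [mem_image]
        exact ⟨_, hmem, by congr 1; abel⟩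
    have hcnt : ∀ v ∈ V, (1 / (4 * (m : ℝ))) * (m : ℝ) ^ Fintype.card (Fin n → ZMod M) ≤
        ((A v).card : ℝ) := by
      intro v hv
      apply count_event m hm
      · rw [mem_image]
        rintro ⟨z, hz, e⟩
        apply hFr v hv z hz
        rw [red_add] at e
        simpa using e
      · exact card_image_le.trans (hFc v hv)
    have h1 : ((V.biUnion A).card : ℝ) = ∑ v ∈ V, ((A v).card : ℝ) := by
      rw [card_biUnion hdisj]; push_cast; rfl
    have h2 : ∑ _v ∈ V, (1 / (4 * (m : ℝ))) * (m : ℝ) ^ Fintype.card (Fin n → ZMod M)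
        ≤ ∑ v ∈ V, ((A v).card : ℝ) := Finset.sum_le_sum hcnt
    rw [Finset.sum_const, nsmul_eq_mul] at h2
    have h3 : ((V.biUnion A).card : ℝ) ≤ ((univ.filter (fun ω => P ω x)).card : ℝ) := by
      exact_mod_cast card_le_card hsub
    have hΩpos : (0 : ℝ) ≤ (Fintype.card Ω : ℝ) := by positivity
    calc α * (Fintype.card Ω : ℝ) ≤ (V.card : ℝ) / (4 * m) * (Fintype.card Ω : ℝ) :=
          mul_le_mul_of_nonneg_right hα hΩpos
      _ = (V.card : ℝ) * ((1 / (4 * (m : ℝ))) * (m : ℝ) ^ Fintype.card (Fin n → ZMod M)) := by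
          rw [hcardΩ]; ring
      _ ≤ _ := h2
      _ = ((V.biUnion A).card : ℝ) := h1.symm
      _ ≤ _ := h3
  have : Nonempty Ω := ⟨fun _ => 0⟩
  obtain ⟨f, hf⟩ := exists_cover P α key k (by rw [hcardX]; exact hk)
  refine ⟨fun j => {g | f j g = 0}, fun p => ?_⟩
  obtain ⟨j, hj⟩ := hf (red M p)
  exact ⟨j, Good.congr (red_lift M _) hj⟩

end H466R2
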