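import Mathlib
import Pool.Agent.H466R2.ChiCore

/-!
# Grids in finite-dimensional normed spaces (helper466)
-/

namespace H466R2

open Finset MeasureTheory

variable {n : ℕ} {E : Type*} [NormedAddCommGroup E] [NormedSpace ℝ E]

/-- The grid point with integer coordinates `z`, mesh `1/s`. -/
noncomputable def iota (b : Module.Basis (Fin n) ℝ E) (s : ℕ) (z : Fin n → ℤ) : E :=
  b.equivFun.symm (fun i => (z i : ℝ) / s)

/-- The grid cell containing `x`. -/
noncomputable def fl (b : Module.Basis (Fin n) ℝ E) (s : ℕ) (x : E) : Fin n → ℤ :=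
  fun i => ⌊(s : ℝ) * b.equivFun x i⌋

variable (b : Module.Basis (Fin n) ℝ E) (s : ℕ)

theorem iota_sub (z w : Fin n → ℤ) : iota b s (z - w) = iota b s z - iota b s w := by
  rw [iota, iota, iota, ← map_sub]
  congr 1
  funext i
  simp [sub_div]

theorem iota_neg (z : Fin n → ℤ) : iota b s (-z) = - iota b s z := by
  rw [iota, iota, ← map_neg]
  congr 1
  funext i
  simp [neg_div]

theorem iota_zero : iota b s (0 : Fin n → ℤ) = 0 := by
  have := iota_sub b s 0 0
  simpa using this

theorem equivFun_iota (z : Fin n → ℤ) (i : Fin n) : b.equivFun (iota b s z) i = (z i : ℝ) / s := by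
  rw [iota, LinearEquiv.apply_symm_apply]

theorem fl_add_iota (hs : 0 < s) (x : E) (z : Fin n → ℤ) :
    fl b s (x + iota b s z) = fl b s x + z := by
  have hs' : (s : ℝ) ≠ 0 := by positivity
  funext i
  rw [fl, Pi.add_apply, fl, map_add, Pi.add_apply, equivFun_iota]
  have : (s : ℝ) * (b.equivFun x i + (z i : ℝ) / s) = (s : ℝ) * b.equivFun x i + (z i : ℝ) := by
    field_simp
  rw [this, Int.floor_add_intCast]

theorem norm_le_sum (hb : ∀ i, ‖b i‖ ≤ 1) (x : E) : ‖x‖ ≤ ∑ i, |b.equivFun x i| := by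
  conv_lhs => rw [← b.sum_equivFun x]
  refine (norm_sum_le _ _).trans (Finset.sum_le_sum fun i _ => ?_)
  rw [norm_smul, Real.norm_eq_abs]
  exact mul_le_of_le_one_right (abs_nonneg _) (hb i)

/-- The residual coordinates are in `[0, 1/s)`. -/
theorem resid_mem (hs : 0 < s) (x : E) (i : Fin n) :
    0 ≤ b.equivFun (x - iota b s (fl b s x)) i ∧
      b.equivFun (x - iota b s (fl b s x)) i ≤ 1 / s := by
  have hs' : (0 : ℝ) < s := by exact_mod_cast hs
  rw [map_sub, Pi.sub_apply, equivFun_iota, fl]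
  have h1 := Int.floor_le ((s : ℝ) * b.equivFun x i)
  have h2 := (Int.lt_floor_add_one ((s : ℝ) * b.equivFun x i)).le
  have e : (s : ℝ) * (b.equivFun x i - (⌊(s : ℝ) * b.equivFun x i⌋ : ℝ) / s)
      = (s : ℝ) * b.equivFun x i - (⌊(s : ℝ) * b.equivFun x i⌋ : ℝ) := by
    field_simp
  constructor
  · by_contra hneg
    push Not at hneg
    have := mul_neg_of_pos_of_neg hs' hneg
    rw [e] at this
    linarith
  · rw [le_div_iff₀ hs', mul_comm, e]
    linarith

theorem norm_resid (hb : ∀ i, ‖b i‖ ≤ 1) (hs : 0 < s) (x : E) :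
    ‖x - iota b s (fl b s x)‖ ≤ (n : ℝ) / s := by
  refine (norm_le_sum b hb _).trans ?_
  have : ∀ i ∈ (univ : Finset (Fin n)), |b.equivFun (x - iota b s (fl b s x)) i| ≤ 1 / (s : ℝ) := by
    intro i _
    obtain ⟨h1, h2⟩ := resid_mem b s hs x i
    rw [abs_of_nonneg h1]; exact h2
  refine (Finset.sum_le_sum this).trans ?_
  simp [div_eq_mul_inv]

theorem norm_resid_sub (hb : ∀ i, ‖b i‖ ≤ 1) (hs : 0 < s) (x x' : E) :
    ‖(x - x') - iota b s (fl b s x - fl b s x')‖ ≤ (n : ℝ) / s := by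
  have e : (x - x') - iota b s (fl b s x - fl b s x')
      = (x - iota b s (fl b s x)) - (x' - iota b s (fl b s x')) := by
    rw [iota_sub]; abel
  rw [e]
  refine (norm_le_sum b hb _).trans ?_
  have : ∀ i ∈ (univ : Finset (Fin n)),
      |b.equivFun ((x - iota b s (fl b s x)) - (x' - iota b s (fl b s x'))) i| ≤ 1 / (s : ℝ) := by
    intro i _
    obtain ⟨h1, h2⟩ := resid_mem b s hs x i
    obtain ⟨h3, h4⟩ := resid_mem b s hs x' i
    rw [map_sub, Pi.sub_apply, abs_le]
    constructor <;> linarith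
  refine (Finset.sum_le_sum this).trans ?_
  simp [div_eq_mul_inv]

theorem abs_le_of_iota (hb2 : ∀ x i, |b.equivFun x i| ≤ ‖x‖) (hs : 0 < s) (z : Fin n → ℤ)
    (i : Fin n) : |(z i : ℝ)| ≤ s * ‖iota b s z‖ := by
  have hs' : (0 : ℝ) < s := by exact_mod_cast hs
  have := hb2 (iota b s z) i
  rw [equivFun_iota, abs_div, abs_of_pos hs', div_le_iff₀ hs'] at this
  linarith

/-- The box of integer vectors of sup norm at most `2 s`. -/
noncomputable def box (n s : ℕ) : Finset (Fin n → ℤ) :=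
  Fintype.piFinset (fun _ => Finset.Icc (-(2 * s : ℤ)) (2 * s))

theorem mem_box (hb2 : ∀ x i, |b.equivFun x i| ≤ ‖x‖) (hs : 0 < s) (z : Fin n → ℤ)
    (hz : ‖iota b s z‖ < 2) : z ∈ box n s := by
  have hs' : (0 : ℝ) < s := by exact_mod_cast hs
  rw [box, Fintype.mem_piFinset]
  intro i
  have h := abs_le_of_iota b s hb2 hs z i
  have h2 : |(z i : ℝ)| ≤ 2 * s := by nlinarith
  rw [abs_le] at h2
  rw [Finset.mem_Icc]
  constructor
  · have := h2.1
    exact_mod_cast this
  · have := h2.2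
    exact_mod_cast this

theorem red_ne_zero (hb2 : ∀ x i, |b.equivFun x i| ≤ ‖x‖) (hs : 0 < s) (z : Fin n → ℤ)
    (hz : ‖iota b s z‖ < 2) (hz0 : z ≠ 0) : red (2 * s) z ≠ 0 := by
  intro h
  obtain ⟨i, hi⟩ : ∃ i, z i ≠ 0 := by
    by_contra hcon
    push Not at hcon
    exact hz0 (funext hcon)
  have hdiv : ((2 * s : ℕ) : ℤ) ∣ z i := by
    have := congrFun h i
    rw [red, Pi.zero_apply] at this
    rwa [← ZMod.intCast_zmod_eq_zero_iff_dvd]
  have hle := Int.le_of_dvd (abs_pos.mpr hi) ((dvd_abs _ _).mpr hdiv)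
  have h1 : (2 * s : ℝ) ≤ |(z i : ℝ)| := by
    have : (((2 * s : ℕ) : ℤ) : ℝ) ≤ ((|z i| : ℤ) : ℝ) := by exact_mod_cast hle
    push_cast at this
    exact this
  have h2 := abs_le_of_iota b s hb2 hs z i
  have hs' : (0 : ℝ) < s := by exact_mod_cast hs
  nlinarith

section volume

set_option linter.unusedSectionVars false

variable [MeasurableSpace E] [BorelSpace E] [FiniteDimensional ℝ E]

theorem measurable_fl : Measurable (fl b s) := by
  rw [measurable_pi_iff]
  intro i
  have h : Continuous (fun x : E => (s : ℝ) * b.equivFun x i) := by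
    have hc : Continuous (b.equivFun : E →ₗ[ℝ] (Fin n → ℝ)) :=
      LinearMap.continuous_of_finiteDimensional _
    exact continuous_const.mul ((continuous_apply i).comp hc)
  exact Int.measurable_floor.comp h.measurable

variable (μ : Measure E) [μ.IsAddHaarMeasure]

/-- The cell of `z`. -/
def cell (z : Fin n → ℤ) : Set E := fl b s ⁻¹' {z}

theorem measurableSet_cell (z : Fin n → ℤ) : MeasurableSet (cell b s z) :=
  measurable_fl b s (measurableSet_singleton z)

theorem measure_cell (hs : 0 < s) (z : Fin n → ℤ) : μ (cell b s z) = μ (cell b s 0) := by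
  have : cell b s z = (fun x => x + (- iota b s z)) ⁻¹' (cell b s 0) := by
    ext x
    simp only [cell, Set.mem_preimage, Set.mem_singleton_iff]
    have h := fl_add_iota b s hs (x + -iota b s z) z
    have e : x + -iota b s z + iota b s z = x := by abel
    rw [e] at h
    rw [h]
    constructor
    · intro h'
      have : fl b s (x + -iota b s z) + z = 0 + z := by rw [h', zero_add]
      exact add_right_cancel this
    · intro h'; rw [h', zero_add]
  rw [this, measure_preimage_add_right]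

theorem cell_subset (hb : ∀ i, ‖b i‖ ≤ 1) (hs : 0 < s) (z : Fin n → ℤ) (x : E)
    (hx : x ∈ cell b s z) : ‖x - iota b s z‖ ≤ (n : ℝ) / s := by
  have := norm_resid b s hb hs x
  rw [cell, Set.mem_preimage, Set.mem_singleton_iff] at hx
  rwa [hx] at this

theorem cell_disjoint (T : Set (Fin n → ℤ)) : T.PairwiseDisjoint (cell b s) := by
  intro z _ w _ hne
  rw [Function.onFun, Set.disjoint_left]
  intro x hx hx'
  rw [cell, Set.mem_preimage, Set.mem_singleton_iff] at hx hx'
  exact hne (hx.symm.trans hx')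

/-- Upper count. -/
theorem card_upper (hb : ∀ i, ‖b i‖ ≤ 1) (hs : 0 < s) (T : Finset (Fin n → ℤ)) (a : E) (R : ℝ)
    (hR : 0 ≤ R) (hT : ∀ z ∈ T, ‖iota b s z - a‖ ≤ R) :
    (T.card : ENNReal) * μ (cell b s 0) ≤
      ENNReal.ofReal ((R + (n : ℝ) / s) ^ Module.finrank ℝ E) * μ (Metric.ball 0 1) := by
  have h1 : μ (⋃ z ∈ T, cell b s z) = ∑ z ∈ T, μ (cell b s z) :=
    measure_biUnion_finset (cell_disjoint b s _) (fun z _ => measurableSet_cell b s z)
  rw [Finset.sum_congr rfl (fun z _ => measure_cell b s μ hs z), Finset.sum_const,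
    nsmul_eq_mul] at h1
  rw [← h1, ← Measure.addHaar_closedBall μ a (by positivity)]
  apply measure_mono
  intro x hx
  simp only [Set.mem_iUnion] at hx
  obtain ⟨z, hz, hx⟩ := hx
  rw [Metric.mem_closedBall, dist_eq_norm]
  have h2 := cell_subset b s hb hs z x hx
  have h3 := hT z hz
  calc ‖x - a‖ = ‖(x - iota b s z) + (iota b s z - a)‖ := by congr 1; abel
    _ ≤ ‖x - iota b s z‖ + ‖iota b s z - a‖ := norm_add_le _ _
    _ ≤ R + (n : ℝ) / s := by linarith

/-- Lower count. -/
theorem card_lower (hb : ∀ i, ‖b i‖ ≤ 1) (hs : 0 < s) (V : Finset (Fin n → ℤ)) (r : ℝ)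
    (hr : 0 < r - (n : ℝ) / s) (hV : ∀ z, ‖iota b s z‖ < r → z ∈ V) :
    ENNReal.ofReal ((r - (n : ℝ) / s) ^ Module.finrank ℝ E) * μ (Metric.ball 0 1) ≤
      (V.card : ENNReal) * μ (cell b s 0) := by
  have h1 : μ (⋃ z ∈ V, cell b s z) = ∑ z ∈ V, μ (cell b s z) :=
    measure_biUnion_finset (cell_disjoint b s _) (fun z _ => measurableSet_cell b s z)
  rw [Finset.sum_congr rfl (fun z _ => measure_cell b s μ hs z), Finset.sum_const,
    nsmul_eq_mul] at h1
  rw [← h1, ← Measure.addHaar_ball_of_pos μ 0 hr]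
  apply measure_mono
  intro x hx
  rw [Metric.mem_ball, dist_zero_right] at hx
  simp only [Set.mem_iUnion]
  refine ⟨fl b s x, hV _ ?_, by simp [cell]⟩
  have h2 := norm_resid b s hb hs x
  calc ‖iota b s (fl b s x)‖ = ‖x - (x - iota b s (fl b s x))‖ := by congr 1; abel
    _ ≤ ‖x‖ + ‖x - iota b s (fl b s x)‖ := norm_sub_le _ _
    _ < r := by linarith

end volume

end H466R2
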