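import Mathlib
import Pool.Agent.H466R2.ChiGrid

/-!
# The master colouring theorem (helper466)
-/

namespace H466R2

open Finset MeasureTheory

variable {n : ℕ} {E : Type*} [NormedAddCommGroup E] [NormedSpace ℝ E]

theorem master [MeasurableSpace E] [BorelSpace E] (b : Module.Basis (Fin n) ℝ E)
    (hb : ∀ i, ‖b i‖ ≤ 1) (hb2 : ∀ x i, |b.equivFun x i| ≤ ‖x‖) (s : ℕ) (hs : 0 < s)
    (η : ℝ) (hη : η = (n : ℝ) / s) (hη0 : 0 < η) (hη4 : 4 * η < 1)
    (kill : (Fin n → ℤ) → (Fin n → ℤ) → Prop) (R : ℝ) (hR : 0 ≤ R)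
    (hsep : ∀ v v' z, ‖iota b s v‖ < 1 / 2 - η → ‖iota b s v'‖ < 1 / 2 - η → z ≠ 0 →
      ¬ kill v z → ¬ kill v' (-z) → 1 + η < ‖iota b s (v - v' - z)‖)
    (hk2 : ∀ v z, ‖iota b s v‖ < 1 / 2 - η → kill v z → ‖iota b s z‖ < 2)
    (hkR : ∀ v, ‖iota b s v‖ < 1 / 2 - η → ∃ a : E, ∀ z, kill v z → ‖iota b s z - a‖ ≤ R)
    (Q : ℝ) (hQ : ((R + η) / (1 / 2 - 2 * η)) ^ n ≤ Q) :
    ∃ k : ℕ, (k : ℝ) ≤ 4 * (Q + 2) * (n * Real.log ((2 * s : ℕ) : ℝ)) + 1 ∧
      ∃ c : E → Fin k, Measurable c ∧ ∀ x y, dist x y = 1 → c x ≠ c y := by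
  classical
  have hfd : FiniteDimensional ℝ E := b.finiteDimensional_of_finite
  have hrank : Module.finrank ℝ E = n := by
    rw [Module.finrank_eq_card_basis b, Fintype.card_fin]
  have hs' : (0 : ℝ) < s := by exact_mod_cast hs
  set μ : Measure E := Measure.addHaar with hμ
  set V : Finset (Fin n → ℤ) := (box n s).filter (fun v => ‖iota b s v‖ < 1 / 2 - η) with hV
  set F : (Fin n → ℤ) → Finset (Fin n → ℤ) := fun v =>
    (box n s).filter (fun z => z ≠ 0 ∧ kill v z) with hF
  have hVmem : ∀ v, v ∈ V ↔ ‖iota b s v‖ < 1 / 2 - η := by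
    intro v
    rw [hV, mem_filter]
    refine ⟨fun h => h.2, fun h => ⟨mem_box b s hb2 hs v (by linarith), h⟩⟩
  -- volumes
  set ν : ENNReal := μ (Metric.ball (0 : E) 1) with hν
  set ω : ENNReal := μ (cell b s 0) with hω
  have hν0 : ν ≠ 0 := (Metric.measure_ball_pos μ 0 one_pos).ne'
  have hνt : ν ≠ ⊤ := measure_ball_lt_top.ne
  have hωt : ω ≠ ⊤ := by
    have h := card_upper b s μ hb hs {0} 0 0 le_rfl (by
      intro z hz
      rw [mem_singleton] at hz
      rw [hz, iota_zero]; simp)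
    rw [card_singleton, Nat.cast_one, one_mul] at h
    exact ne_top_of_le_ne_top (ENNReal.mul_ne_top ENNReal.ofReal_ne_top hνt) h
  have hνpos : 0 < ν.toReal := ENNReal.toReal_pos hν0 hνt
  have hlow : (1 / 2 - 2 * η) ^ n * ν.toReal ≤ (V.card : ℝ) * ω.toReal := by
    have h := card_lower b s μ hb hs V (1 / 2 - η) (by rw [← hη]; linarith)
      (fun z hz => (hVmem z).mpr hz)
    rw [hrank, ← hη] at h
    have h' := ENNReal.toReal_mono (ENNReal.mul_ne_top (ENNReal.natCast_ne_top _) hωt) h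
    rw [ENNReal.toReal_mul, ENNReal.toReal_mul, ENNReal.toReal_natCast,
      ENNReal.toReal_ofReal (by
        apply pow_nonneg; linarith)] at h'
    have e : (1 / 2 - 2 * η) = 1 / 2 - η - η := by ring
    rw [e]; exact h'
  have hup : ∀ v ∈ V, ((F v).card : ℝ) * ω.toReal ≤ (R + η) ^ n * ν.toReal := by
    intro v hv
    obtain ⟨a, ha⟩ := hkR v ((hVmem v).mp hv)
    have h := card_upper b s μ hb hs (F v) a R hR (by
      intro z hz
      rw [hF] at hz
      exact ha z (mem_filter.mp hz).2.2)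
    rw [hrank, ← hη] at h
    have h' := ENNReal.toReal_mono (ENNReal.mul_ne_top ENNReal.ofReal_ne_top hνt) h
    rw [ENNReal.toReal_mul, ENNReal.toReal_mul, ENNReal.toReal_natCast,
      ENNReal.toReal_ofReal (by positivity)] at h'
    exact h'
  have hbase : 0 < 1 / 2 - 2 * η := by linarith
  have hbasen : 0 < (1 / 2 - 2 * η) ^ n := pow_pos hbase n
  have hVω : 0 < (V.card : ℝ) * ω.toReal := lt_of_lt_of_le (mul_pos hbasen hνpos) hlow
  have hωpos : 0 < ω.toReal := by
    rcases (ENNReal.toReal_nonneg (a := ω)).lt_or_eq with h | h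
    · exact h
    · rw [← h, mul_zero] at hVω; exact absurd hVω (lt_irrefl _)
  have hVpos : 0 < V.card := by
    rcases Nat.eq_zero_or_pos V.card with h | h
    · rw [h, Nat.cast_zero, zero_mul] at hVω; exact absurd hVω (lt_irrefl _)
    · exact h
  have hV1 : (1 : ℝ) ≤ V.card := by exact_mod_cast hVpos
  have hQ' : (R + η) ^ n ≤ Q * (1 / 2 - 2 * η) ^ n := by
    rw [div_pow, div_le_iff₀ hbasen] at hQ
    exact hQ
  have hQ0 : 0 ≤ Q := le_trans (by positivity) hQ
  have hFc : ∀ v ∈ V, ((F v).card : ℝ) ≤ Q * V.card := by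
    intro v hv
    have h1 := hup v hv
    have h2 : (R + η) ^ n * ν.toReal ≤ Q * ((V.card : ℝ) * ω.toReal) := by
      calc (R + η) ^ n * ν.toReal ≤ (Q * (1 / 2 - 2 * η) ^ n) * ν.toReal :=
            mul_le_mul_of_nonneg_right hQ' hνpos.le
        _ = Q * ((1 / 2 - 2 * η) ^ n * ν.toReal) := by ring
        _ ≤ _ := mul_le_mul_of_nonneg_left hlow hQ0
    have h3 : ((F v).card : ℝ) * ω.toReal ≤ (Q * V.card) * ω.toReal := by
      calc _ ≤ _ := h1
        _ ≤ _ := h2
        _ = _ := by ring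
    exact le_of_mul_le_mul_right h3 hωpos
  set m : ℕ := max 2 ⌊Q * V.card⌋₊ with hm
  have hm2 : 2 ≤ m := le_max_left _ _
  have hmle : (m : ℝ) ≤ (Q + 2) * V.card := by
    rw [hm]
    push_cast
    apply max_le
    · nlinarith
    · refine (Nat.floor_le (by positivity)).trans ?_
      nlinarith
  have hmpos : (0 : ℝ) < m := by
    have : (2 : ℝ) ≤ m := by exact_mod_cast hm2
    linarith
  set α : ℝ := 1 / (4 * (Q + 2)) with hα
  have hα0 : 0 < α := by positivity
  have hα1 : α ≤ 1 := by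
    rw [hα, div_le_one (by positivity)]
    linarith
  have hαle : α ≤ (V.card : ℝ) / (4 * m) := by
    rw [hα, div_le_div_iff₀ (by positivity) (by positivity)]
    linarith
  set k : ℕ := ⌊4 * (Q + 2) * (n * Real.log ((2 * s : ℕ) : ℝ))⌋₊ + 1 with hk
  have h2s : (1 : ℝ) ≤ ((2 * s : ℕ) : ℝ) := by
    have : 1 ≤ 2 * s := by omega
    exact_mod_cast this
  have hlog0 : 0 ≤ Real.log ((2 * s : ℕ) : ℝ) := Real.log_nonneg h2s
  have hklt : n * Real.log ((2 * s : ℕ) : ℝ) < α * k := by
    have h := Nat.lt_floor_add_one (4 * (Q + 2) * (n * Real.log ((2 * s : ℕ) : ℝ)))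
    have h' : 4 * (Q + 2) * (n * Real.log ((2 * s : ℕ) : ℝ)) < (k : ℝ) := by
      rw [hk]; push_cast; push_cast at h; exact h
    rw [hα, one_div, inv_mul_eq_div, lt_div_iff₀ (by positivity)]
    linarith
  have hMne : NeZero (2 * s) := ⟨by omega⟩
  have hcond : ((2 * s : ℕ) : ℝ) ^ n * (1 - α) ^ k < 1 := by
    have h1 : (1 - α) ^ k ≤ Real.exp (-(α * k)) := by
      calc (1 - α) ^ k ≤ (Real.exp (-α)) ^ k := by
            apply pow_le_pow_left₀ (by linarith)
            have := Real.add_one_le_exp (-α)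
            linarith
        _ = Real.exp (-(α * k)) := by
            rw [← Real.exp_nat_mul]; congr 1; ring
    have h2 : Real.exp (-(α * k)) < Real.exp (-(n * Real.log ((2 * s : ℕ) : ℝ))) := by
      apply Real.exp_lt_exp.mpr; linarith
    have h3 : Real.exp (n * Real.log ((2 * s : ℕ) : ℝ)) = ((2 * s : ℕ) : ℝ) ^ n := by
      rw [Real.exp_nat_mul, Real.exp_log (by linarith)]
    have hpos : 0 < ((2 * s : ℕ) : ℝ) ^ n := pow_pos (by linarith) n
    calc ((2 * s : ℕ) : ℝ) ^ n * (1 - α) ^ k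
        ≤ ((2 * s : ℕ) : ℝ) ^ n * Real.exp (-(α * k)) :=
          mul_le_mul_of_nonneg_left h1 hpos.le
      _ < ((2 * s : ℕ) : ℝ) ^ n * Real.exp (-(n * Real.log ((2 * s : ℕ) : ℝ))) :=
          mul_lt_mul_of_pos_left h2 hpos
      _ = 1 := by rw [Real.exp_neg, h3, mul_inv_cancel₀ hpos.ne']
  obtain ⟨Y, hY⟩ := core (2 * s) V kill m hm2
    (by
      intro v hv
      refine ⟨F v, ?_, ?_, ?_⟩
      · rw [hm]
        apply le_max_of_le_right
        exact Nat.le_floor (hFc v hv)
      · intro z hz0 hz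
        rw [hF]
        exact mem_filter.mpr ⟨mem_box b s hb2 hs z (hk2 v z ((hVmem v).mp hv) hz), hz0, hz⟩
      · intro z hz
        have hz' := (mem_filter.mp hz).2
        exact red_ne_zero b s hb2 hs z (hk2 v z ((hVmem v).mp hv) hz'.2) hz'.1)
    (by
      intro v hv v' hv' hne
      by_contra hcon
      push Not at hcon
      have h := hsep v v' (v - v') ((hVmem v).mp hv) ((hVmem v').mp hv') (sub_ne_zero.mpr hne)
        hcon.1 (by rw [neg_sub]; exact hcon.2)
      rw [sub_self, iota_zero, norm_zero] at h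
      linarith)
    α hαle k hcond
  refine ⟨k, ?_, fun x => Classical.choose (hY (fl b s x)), ?_, ?_⟩
  · rw [hk]; push_cast
    have := Nat.floor_le (a := 4 * (Q + 2) * (n * Real.log ((2 * s : ℕ) : ℝ))) (by positivity)
    push_cast at this
    linarith
  · exact (measurable_of_countable (fun p : Fin n → ℤ => Classical.choose (hY p))).comp
      (measurable_fl b s)
  · intro x y hxy hc
    have h1 := Classical.choose_spec (hY (fl b s x))
    have h2 := Classical.choose_spec (hY (fl b s y))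
    simp only at hc
    rw [← hc] at h2
    set j := Classical.choose (hY (fl b s x))
    obtain ⟨y1, hy1, hv1, hk1⟩ := h1
    obtain ⟨y2, hy2, hv2, hk2'⟩ := h2
    have hres := norm_resid_sub b s hb hs x y
    rw [← hη] at hres
    rw [dist_eq_norm] at hxy
    rw [hVmem] at hv1 hv2
    by_cases hyy : y1 = y2
    · subst hyy
      have e : fl b s x - fl b s y = (fl b s x - y1) - (fl b s y - y1) := by abel
      have h3 : ‖iota b s (fl b s x - fl b s y)‖ < 1 - 2 * η := by
        rw [e, iota_sub]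
        refine (norm_sub_le _ _).trans_lt ?_
        linarith
      have h4 : ‖x - y‖ ≤ ‖x - y - iota b s (fl b s x - fl b s y)‖
          + ‖iota b s (fl b s x - fl b s y)‖ := by
        calc ‖x - y‖ = ‖(x - y - iota b s (fl b s x - fl b s y))
              + iota b s (fl b s x - fl b s y)‖ := by congr 1; abel
          _ ≤ _ := norm_add_le _ _
      linarith
    · have h3 := hsep (fl b s x - y1) (fl b s y - y2) (y2 - y1) hv1 hv2
        (sub_ne_zero.mpr (Ne.symm hyy)) (hk1 y2 hy2 (Ne.symm hyy))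
        (by rw [neg_sub]; exact hk2' y1 hy1 hyy)
      have e : fl b s x - y1 - (fl b s y - y2) - (y2 - y1) = fl b s x - fl b s y := by abel
      rw [e] at h3
      have h4 : ‖iota b s (fl b s x - fl b s y)‖ ≤ ‖x - y‖
          + ‖x - y - iota b s (fl b s x - fl b s y)‖ := by
        calc ‖iota b s (fl b s x - fl b s y)‖
            = ‖(x - y) - (x - y - iota b s (fl b s x - fl b s y))‖ := by congr 1; abel
          _ ≤ _ := norm_sub_le _ _
      linarith

end H466R2
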