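import Mathlib
import Pool.Agent.H466R2.ChiMaster

/-!
# Colouring Euclidean space with `O(n log n (3√3/2)^n)` colours (helper466)
-/

namespace H466R2

open Finset MeasureTheory
open scoped RealInnerProductSpace

theorem final_bound (n : ℕ) (hn : 1 ≤ n) (q : ℝ) (hq : 2 ≤ q) :
    4 * (3 * q ^ n + 2) * (n * Real.log ((2 * (14 * n ^ 2) : ℕ) : ℝ)) + 1 ≤
      101 * n * Real.log (n + 1) * q ^ n := by
  have hn' : (1 : ℝ) ≤ n := by exact_mod_cast hn
  have hqn : 2 ≤ q ^ n := by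
    calc (2 : ℝ) ≤ q := hq
      _ = q ^ 1 := (pow_one q).symm
      _ ≤ q ^ n := pow_le_pow_right₀ (by linarith) hn
  have hlog : Real.log ((2 * (14 * n ^ 2) : ℕ) : ℝ) ≤ 5 * Real.log (n + 1) := by
    have h1 : ((2 * (14 * n ^ 2) : ℕ) : ℝ) ≤ ((n : ℝ) + 1) ^ 5 := by
      push_cast
      have h2 : (4 : ℝ) * n ≤ (n + 1) ^ 2 := by nlinarith [sq_nonneg ((n : ℝ) - 1)]
      have h3 : (16 : ℝ) * n ^ 2 ≤ ((n : ℝ) + 1) ^ 4 := by nlinarith
      have h4 : ((n : ℝ) + 1) ^ 5 = ((n : ℝ) + 1) ^ 4 * (n + 1) := by ring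
      rw [h4]
      nlinarith
    have h5 : Real.log (((n : ℝ) + 1) ^ 5) = 5 * Real.log (n + 1) := by
      rw [Real.log_pow]; norm_num
    rw [← h5]
    apply Real.log_le_log _ h1
    have : 0 < 2 * (14 * n ^ 2) := by positivity
    exact_mod_cast this
  have hlog2 : Real.log 2 ≤ Real.log (n + 1) := Real.log_le_log (by norm_num) (by linarith)
  have hl2 := Real.log_two_gt_d9
  have hL : 0.69 ≤ Real.log ((n : ℝ) + 1) := by linarith
  have h6 : n * Real.log ((2 * (14 * n ^ 2) : ℕ) : ℝ) ≤ n * (5 * Real.log (n + 1)) :=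
    mul_le_mul_of_nonneg_left hlog (by linarith)
  have h7 : 4 * (3 * q ^ n + 2) ≤ 20 * q ^ n := by linarith [hqn]
  have h8 : 4 * (3 * q ^ n + 2) * (n * Real.log ((2 * (14 * n ^ 2) : ℕ) : ℝ)) ≤
      (20 * q ^ n) * (n * (5 * Real.log (n + 1))) := by
    apply mul_le_mul h7 h6
    · apply mul_nonneg (by linarith)
      apply Real.log_nonneg
      have : 1 ≤ 2 * (14 * n ^ 2) := by
        have : 0 < 2 * (14 * n ^ 2) := by positivity
        omega
      exact_mod_cast this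
    · linarith
  have h9 : 1 ≤ n * Real.log (n + 1) * q ^ n := by
    have h10 : 0.69 ≤ n * Real.log ((n : ℝ) + 1) := by nlinarith
    nlinarith
  calc _ ≤ (20 * q ^ n) * (n * (5 * Real.log (n + 1))) + n * Real.log (n + 1) * q ^ n := by
        linarith
    _ = _ := by ring

theorem ratio_pow (n : ℕ) (hn : 1 ≤ n) (q x : ℝ) (hq : 0 ≤ q) (hx0 : 0 ≤ x)
    (hx : x ≤ q * (1 + 1 / (n : ℝ))) : x ^ n ≤ 3 * q ^ n := by
  have hn' : (0 : ℝ) < n := by exact_mod_cast hn
  have h1 : x ^ n ≤ (q * (1 + 1 / (n : ℝ))) ^ n := pow_le_pow_left₀ hx0 hx n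
  rw [mul_pow] at h1
  have h2 : (1 + 1 / (n : ℝ)) ^ n ≤ Real.exp 1 := by
    calc (1 + 1 / (n : ℝ)) ^ n ≤ (Real.exp (1 / (n : ℝ))) ^ n := by
          apply pow_le_pow_left₀ (by positivity)
          have := Real.add_one_le_exp (1 / (n : ℝ))
          linarith
      _ = Real.exp 1 := by
          rw [← Real.exp_nat_mul]; congr 1; field_simp
  have h3 := Real.exp_one_lt_d9
  have h4 : (1 + 1 / (n : ℝ)) ^ n ≤ 3 := by linarith
  have h5 : 0 ≤ q ^ n := pow_nonneg hq n
  nlinarith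

theorem euclid_bound (n : ℕ) (hn : 1 ≤ n) :
    ∃ k : ℕ, (k : ℝ) ≤ 101 * n * Real.log (n + 1) * (3 * √3 / 2) ^ n ∧
      ∃ c : EuclideanSpace ℝ (Fin n) → Fin k, Measurable c ∧
        ∀ x y, dist x y = 1 → c x ≠ c y := by
  have hn' : (1 : ℝ) ≤ n := by exact_mod_cast hn
  set s : ℕ := 14 * n ^ 2 with hs
  have hs0 : 0 < s := by positivity
  set η : ℝ := 1 / (14 * n) with hη
  have hη' : η = (n : ℝ) / s := by
    rw [hη, hs]; push_cast; field_simp
  have hη0 : 0 < η := by positivity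
  have hη8 : η ≤ 1 / 14 := by
    rw [hη]; apply one_div_le_one_div_of_le (by norm_num); linarith
  have h3a : (1.732 : ℝ) < √3 := by
    rw [Real.lt_sqrt (by norm_num)]; norm_num
  have h3sq : √3 ^ 2 = 3 := Real.sq_sqrt (by norm_num)
  set c : ℝ := 1 + 2 * η with hc
  have hc1 : 1 ≤ c := by linarith
  set b := (EuclideanSpace.basisFun (Fin n) ℝ).toBasis with hb
  have hbf : ∀ (x : EuclideanSpace ℝ (Fin n)) i, b.equivFun x i = x i := by
    intro x i
    simp [hb]
  set kill : (Fin n → ℤ) → (Fin n → ℤ) → Prop := fun v z =>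
    ‖iota b s z‖ * (‖iota b s z‖ - c) / 2 ≤ ⟪iota b s v, iota b s z⟫ with hkill
  obtain ⟨k, hk, col, hcol⟩ := master (E := EuclideanSpace ℝ (Fin n)) b
    (by intro i; simp [hb]) (by
      intro x i
      rw [hbf]
      exact PiLp.norm_apply_le x i) s hs0 η hη' hη0 (by linarith) kill ((3 * √3 / 4) * c)
    (by positivity)
    (by
      -- separation
      intro v v' z _ _ _ h1 h2
      simp only [hkill, not_le] at h1 h2
      rw [iota_neg, norm_neg, inner_neg_right] at h2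
      rw [iota_sub, iota_sub]
      set a := iota b s v
      set a' := iota b s v'
      set w := iota b s z
      have h3 : ⟪a - a' - w, w⟫ = ⟪a, w⟫ - ⟪a', w⟫ - ‖w‖ ^ 2 := by
        rw [inner_sub_left, inner_sub_left, real_inner_self_eq_norm_sq]
      have h4 : c * ‖w‖ < -⟪a - a' - w, w⟫ := by
        rw [h3]; nlinarith
      have h5 : -⟪a - a' - w, w⟫ ≤ ‖a - a' - w‖ * ‖w‖ := by
        have := abs_real_inner_le_norm (a - a' - w) w
        linarith [neg_abs_le ⟪a - a' - w, w⟫]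
      have h6 : c * ‖w‖ < ‖a - a' - w‖ * ‖w‖ := lt_of_lt_of_le h4 h5
      have h7 : c < ‖a - a' - w‖ := lt_of_mul_lt_mul_right h6 (norm_nonneg w)
      linarith)
    (by
      intro v z hv h
      simp only [hkill] at h
      by_contra hcon
      push Not at hcon
      have h1 := real_inner_le_norm (iota b s v) (iota b s z)
      have h2 : ‖iota b s z‖ * (‖iota b s z‖ - c) / 2 ≤ ‖iota b s v‖ * ‖iota b s z‖ := h.trans h1
      nlinarith)
    (by
      intro v hv
      refine ⟨(3 / 2 : ℝ) • iota b s v, fun z h => ?_⟩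
      simp only [hkill] at h
      set a := iota b s v
      set w := iota b s z
      have hx0 := norm_nonneg w
      have hR0 : 0 ≤ (3 * √3 / 4) * c := by positivity
      rw [← abs_of_nonneg hR0, ← abs_of_nonneg (norm_nonneg (w - (3 / 2 : ℝ) • a)), ← sq_le_sq]
      have h1 : ‖w - (3 / 2 : ℝ) • a‖ ^ 2 = ‖w‖ ^ 2 - 3 * ⟪a, w⟫ + 9 / 4 * ‖a‖ ^ 2 := by
        rw [norm_sub_sq_real, inner_smul_right, norm_smul, Real.norm_eq_abs, mul_pow,
          abs_of_pos (by norm_num : (0 : ℝ) < 3 / 2), real_inner_comm]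
        ring
      have ha : ‖a‖ ^ 2 ≤ 1 / 4 := by
        have := norm_nonneg a
        nlinarith
      have hR : ((3 * √3 / 4) * c) ^ 2 = 27 / 16 * c ^ 2 := by
        rw [mul_pow, div_pow, mul_pow, h3sq]; ring
      rw [h1, hR]
      nlinarith [sq_nonneg (‖w‖ - 3 / 2 * c)])
    (3 * (3 * √3 / 2) ^ n)
    (by
      apply ratio_pow n hn
      · positivity
      · apply div_nonneg
        · positivity
        · linarith
      · have e : 1 / (n : ℝ) = 14 * η := by rw [hη]; field_simp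
        rw [e, div_le_iff₀ (by linarith), hc]
        have hkey : (1 + 2 * η) + η ≤ (1 + 14 * η) * (1 - 4 * η) := by nlinarith
        have hs3 : (1 : ℝ) ≤ 3 * √3 / 4 := by linarith
        have : 3 * √3 / 4 * (1 + 2 * η) + η ≤ 3 * √3 / 4 * ((1 + 14 * η) * (1 - 4 * η)) := by
          nlinarith
        calc 3 * √3 / 4 * (1 + 2 * η) + η ≤ 3 * √3 / 4 * ((1 + 14 * η) * (1 - 4 * η)) := this
          _ = _ := by ring)
  refine ⟨k, hk.trans ?_, col, hcol⟩
  rw [hs]
  exact final_bound n hn (3 * √3 / 2) (by linarith)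

end H466R2
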