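import Mathlib
import Pool.Agent.H466R2.ChiEuclid

/-!
# Colouring any normed space of dimension `n` with `O(n log n 3^n)` colours (helper466)
-/

namespace H466R2

open Finset MeasureTheory

/-- Auerbach's lemma. -/
theorem auerbach {n : ℕ} {E : Type*} [NormedAddCommGroup E] [NormedSpace ℝ E]
    [FiniteDimensional ℝ E] (hn : Module.finrank ℝ E = n) :
    ∃ b : Module.Basis (Fin n) ℝ E, (∀ i, ‖b i‖ ≤ 1) ∧ ∀ x i, |b.equivFun x i| ≤ ‖x‖ := by
  classical
  set e : Module.Basis (Fin n) ℝ E := Module.finBasisOfFinrankEq ℝ E hn with he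
  set K : Set (Fin n → E) := Set.pi Set.univ (fun _ => Metric.closedBall (0 : E) 1) with hK
  have hprop : ProperSpace E := FiniteDimensional.proper ℝ E
  have hKc : IsCompact K := isCompact_univ_pi (fun _ => isCompact_closedBall 0 1)
  have hKn : K.Nonempty := ⟨0, by simp [hK, Set.mem_pi]⟩
  have hcont : Continuous (fun v : Fin n → E => |e.det v|) := by
    apply Continuous.abs
    have : (fun v : Fin n → E => e.det v) = fun v => Matrix.det (e.toMatrix v) := by
      funext v; exact e.det_apply v
    change Continuous (fun v : Fin n → E => e.det v)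
    rw [this]
    apply Continuous.matrix_det
    apply continuous_matrix
    intro i j
    have hc : Continuous (e.equivFun : E →ₗ[ℝ] (Fin n → ℝ)) :=
      LinearMap.continuous_of_finiteDimensional _
    exact (continuous_apply i).comp (hc.comp (continuous_apply j))
  obtain ⟨v0, hv0, hmax⟩ := hKc.exists_isMaxOn hKn hcont.continuousOn
  have hmax' : ∀ v ∈ K, |e.det v| ≤ |e.det v0| := fun v hv => hmax hv
  -- the maximum is positive
  have hpos : 0 < |e.det v0| := by
    have hmem : (fun i => (‖e i‖⁻¹ : ℝ) • e i) ∈ K := by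
      rw [hK, Set.mem_univ_pi]
      intro i
      rw [Metric.mem_closedBall, dist_zero_right, norm_smul, norm_inv, norm_norm]
      exact inv_mul_le_one
    have h1 := hmax' _ hmem
    have h2 : e.det (fun i => (‖e i‖⁻¹ : ℝ) • e i) = ∏ i, (‖e i‖⁻¹ : ℝ) := by
      have := e.det.map_smul_univ (fun i => (‖e i‖⁻¹ : ℝ)) e
      rw [this, e.det_self, smul_eq_mul, mul_one]
    rw [h2] at h1
    refine lt_of_lt_of_le ?_ h1
    apply abs_pos.mpr
    apply Finset.prod_ne_zero_iff.mpr
    intro i _
    exact inv_ne_zero (norm_ne_zero_iff.mpr (e.ne_zero i))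
  have hdet0 : e.det v0 ≠ 0 := abs_pos.mp hpos
  obtain ⟨hli, hsp⟩ := (Module.Basis.is_basis_iff_det e).mpr (isUnit_iff_ne_zero.mpr hdet0)
  set b : Module.Basis (Fin n) ℝ E := Module.Basis.mk hli (by rw [hsp]) with hb
  have hbv : ∀ i, b i = v0 i := fun i => Module.Basis.mk_apply _ _ i
  have hv0n : ∀ i, ‖v0 i‖ ≤ 1 := by
    intro i
    rw [hK, Set.mem_univ_pi] at hv0
    simpa using hv0 i
  have hcoord : ∀ x i, e.det (Function.update v0 i x) = b.equivFun x i * e.det v0 := by
    intro x i
    conv_lhs => rw [← b.sum_equivFun x]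
    rw [e.det.map_update_sum]
    rw [Finset.sum_eq_single i]
    · rw [e.det.map_update_smul, hbv, Function.update_eq_self, smul_eq_mul]
    · intro j _ hji
      rw [e.det.map_update_smul, hbv, e.det.map_update_self v0 (Ne.symm hji), smul_zero]
    · intro h; exact absurd (mem_univ i) h
  have hunit : ∀ x, ‖x‖ ≤ 1 → ∀ i, |b.equivFun x i| ≤ 1 := by
    intro x hx i
    have hmem : Function.update v0 i x ∈ K := by
      rw [hK, Set.mem_univ_pi]
      intro j
      rw [Metric.mem_closedBall, dist_zero_right]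
      by_cases hij : j = i
      · subst hij; rw [Function.update_self]; exact hx
      · rw [Function.update_of_ne hij]; exact hv0n j
    have h1 := hmax' _ hmem
    rw [hcoord, abs_mul] at h1
    by_contra hcon
    push Not at hcon
    nlinarith
  refine ⟨b, fun i => by rw [hbv]; exact hv0n i, fun x i => ?_⟩
  by_cases hx : x = 0
  · subst hx; simp
  · have hxn : 0 < ‖x‖ := norm_pos_iff.mpr hx
    have h1 := hunit ((‖x‖⁻¹ : ℝ) • x) (by
      rw [norm_smul, norm_inv, norm_norm, inv_mul_cancel₀ hxn.ne']) i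
    rw [map_smul, Pi.smul_apply, smul_eq_mul, abs_mul, abs_of_pos (inv_pos.mpr hxn),
      inv_mul_le_iff₀ hxn, mul_one] at h1
    exact h1

theorem norm_bound (n : ℕ) (hn : 1 ≤ n) {E : Type*} [NormedAddCommGroup E] [NormedSpace ℝ E]
    [FiniteDimensional ℝ E] [MeasurableSpace E] [BorelSpace E]
    (hrank : Module.finrank ℝ E = n) :
    ∃ k : ℕ, (k : ℝ) ≤ 101 * n * Real.log (n + 1) * 3 ^ n ∧
      ∃ c : E → Fin k, Measurable c ∧ ∀ x y, dist x y = 1 → c x ≠ c y := by
  have hn' : (1 : ℝ) ≤ n := by exact_mod_cast hn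
  set s : ℕ := 14 * n ^ 2 with hs
  have hs0 : 0 < s := by positivity
  set η : ℝ := 1 / (14 * n) with hη
  have hη' : η = (n : ℝ) / s := by
    rw [hη, hs]; push_cast; field_simp
  have hη0 : 0 < η := by positivity
  have hη8 : η ≤ 1 / 14 := by
    rw [hη]; apply one_div_le_one_div_of_le (by norm_num); linarith
  obtain ⟨b, hb1, hb2⟩ := auerbach hrank
  set kill : (Fin n → ℤ) → (Fin n → ℤ) → Prop := fun v z =>
    ‖iota b s z - iota b s v‖ ≤ 3 / 2 with hkill
  obtain ⟨k, hk, col, hcol⟩ := master (E := E) b hb1 hb2 s hs0 η hη' hη0 (by linarith) kill (3 / 2)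
    (by norm_num)
    (by
      intro v v' z hv hv' _ h1 _
      simp only [hkill, not_le] at h1
      rw [iota_sub, iota_sub]
      set a := iota b s v
      set a' := iota b s v'
      set w := iota b s z
      have h2 : ‖w - a‖ ≤ ‖a - a' - w‖ + ‖a'‖ := by
        calc ‖w - a‖ = ‖(a - a' - w) + a'‖ := by
              rw [← norm_neg]; congr 1; abel
          _ ≤ _ := norm_add_le _ _
      linarith)
    (by
      intro v z hv h
      simp only [hkill] at h
      have : ‖iota b s z‖ ≤ ‖iota b s z - iota b s v‖ + ‖iota b s v‖ := by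
        calc ‖iota b s z‖ = ‖(iota b s z - iota b s v) + iota b s v‖ := by congr 1; abel
          _ ≤ _ := norm_add_le _ _
      linarith)
    (by
      intro v _
      exact ⟨iota b s v, fun z h => h⟩)
    (3 * 3 ^ n)
    (by
      apply ratio_pow n hn 3 _ (by norm_num)
      · apply div_nonneg
        · positivity
        · linarith
      · have e : 1 / (n : ℝ) = 14 * η := by rw [hη]; field_simp
        rw [e, div_le_iff₀ (by linarith)]
        nlinarith)
  refine ⟨k, hk.trans ?_, col, hcol⟩
  rw [hs]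
  exact final_bound n hn 3 (by norm_num)

end H466R2
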