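import Mathlib

set_option autoImplicit false

namespace Pool.Agent.H466R2.LVBlock

open Finset Complex

/-- If all phases are within `1` of a common phase modulo `2π`, the sum is large. -/
lemma norm_sum_exp_ge {ι : Type*} (s : Finset ι) (φ : ι → ℝ) (θ : ℝ)
    (h : ∀ i ∈ s, ∃ k : ℤ, |φ i - θ - 2 * Real.pi * k| ≤ 1) :
    (s.card : ℝ) / 2 ≤ ‖∑ i ∈ s, Complex.exp (Complex.I * (φ i : ℂ))‖ := by
  have h1 : ‖∑ i ∈ s, Complex.exp (Complex.I * (φ i : ℂ))‖
      = ‖Complex.exp (((-θ : ℝ) : ℂ) * Complex.I) * ∑ i ∈ s, Complex.exp (Complex.I * (φ i : ℂ))‖ := by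
    rw [norm_mul, Complex.norm_exp_ofReal_mul_I, one_mul]
  rw [h1]
  refine le_trans ?_ (Complex.re_le_norm _)
  rw [Finset.mul_sum, Complex.re_sum]
  have h2 : ∀ i ∈ s, (1 / 2 : ℝ) ≤
      (Complex.exp (((-θ : ℝ) : ℂ) * Complex.I) * Complex.exp (Complex.I * (φ i : ℂ))).re := by
    intro i hi
    obtain ⟨k, hk⟩ := h i hi
    have h3 : Complex.exp (((-θ : ℝ) : ℂ) * Complex.I) * Complex.exp (Complex.I * (φ i : ℂ))
        = Complex.exp (((φ i - θ : ℝ) : ℂ) * Complex.I) := by
      rw [← Complex.exp_add]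
      congr 1
      push_cast
      ring
    rw [h3, Complex.exp_ofReal_mul_I_re]
    have h4 : Real.cos (φ i - θ) = Real.cos (φ i - θ - 2 * Real.pi * k) := by
      have h5 := Real.cos_sub_int_mul_two_pi (φ i - θ) k
      rw [← h5]
      congr 1
      ring
    rw [h4]
    have h5 := Real.one_sub_sq_div_two_le_cos (x := φ i - θ - 2 * Real.pi * k)
    have h6 : (φ i - θ - 2 * Real.pi * k) ^ 2 ≤ 1 := by
      rw [← sq_abs]
      have h0 := abs_nonneg (φ i - θ - 2 * Real.pi * k)
      nlinarith
    linarith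
  have h7 := Finset.sum_le_sum h2
  rw [Finset.sum_const, nsmul_eq_mul] at h7
  linarith

/-- the block of integers `d H + h`, `0 ≤ h < H`, evaluated near an echo. -/
lemma block_lower (H d l : ℕ) (v : ℝ) (hH : 1 ≤ H) (hd : 1 ≤ d) (hv0 : 0 ≤ v) (hv : v ≤ d)
    (hl : Real.pi * H * l ≤ d) :
    (H : ℝ) / 2 ≤ ‖∑ h ∈ Finset.range H, Complex.exp (Complex.I *
      (((2 * Real.pi * H * l * d + v) * Real.log ((d * H + h : ℕ) : ℝ) : ℝ) : ℂ))‖ := by
  have hHr : (1 : ℝ) ≤ H := by exact_mod_cast hH
  have hdr : (1 : ℝ) ≤ d := by exact_mod_cast hd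
  have hpi := Real.pi_pos
  have key := norm_sum_exp_ge (Finset.range H)
    (fun h : ℕ => (2 * Real.pi * H * l * d + v) * Real.log ((d * H + h : ℕ) : ℝ))
    ((2 * Real.pi * H * l * d + v) * Real.log ((d : ℝ) * H)) ?_
  · rw [Finset.card_range] at key
    exact key
  · intro h hh
    rw [Finset.mem_range] at hh
    refine ⟨(l : ℤ) * h, ?_⟩
    have hhr : (h : ℝ) ≤ H := by exact_mod_cast hh.le
    have hh0 : (0 : ℝ) ≤ h := Nat.cast_nonneg _
    have hdH : (0 : ℝ) < (d : ℝ) * H := by positivity
    set z : ℝ := (h : ℝ) / (d * H) with hz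
    have hz0 : 0 ≤ z := by positivity
    have hz1 : z ≤ 1 / d := by
      rw [hz, div_le_div_iff₀ hdH (by positivity)]
      nlinarith
    have hlog : Real.log ((d * H + h : ℕ) : ℝ) = Real.log ((d : ℝ) * H) + Real.log (1 + z) := by
      rw [← Real.log_mul hdH.ne' (by positivity)]
      congr 1
      push_cast
      rw [hz]
      field_simp
    have hup : Real.log (1 + z) ≤ z := by
      have := Real.log_le_sub_one_of_pos (show (0 : ℝ) < 1 + z by linarith)
      linarith
    have hlow : z - z ^ 2 / 2 ≤ Real.log (1 + z) := by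
      have h1 := Real.le_log_one_add_of_nonneg hz0
      refine le_trans ?_ h1
      rw [le_div_iff₀ (by linarith)]
      nlinarith [mul_nonneg hz0 (mul_nonneg hz0 hz0)]
    have heq : (2 * Real.pi * H * l * d + v) * Real.log ((d * H + h : ℕ) : ℝ)
        - (2 * Real.pi * H * l * d + v) * Real.log ((d : ℝ) * H) - 2 * Real.pi * (((l : ℤ) * h : ℤ) : ℝ)
        = (2 * Real.pi * H * l * d) * (Real.log (1 + z) - z) + v * Real.log (1 + z) := by
      rw [hlog]
      have h2 : (2 * Real.pi * H * l * d) * z = 2 * Real.pi * (l * h) := by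
        rw [hz]
        field_simp
      push_cast
      linear_combination h2
    rw [heq, abs_le]
    have hl0 : (0 : ℝ) ≤ l := Nat.cast_nonneg _
    have hc0 : 0 ≤ 2 * Real.pi * H * l * d := by positivity
    have hlog0 : 0 ≤ Real.log (1 + z) := Real.log_nonneg (by linarith)
    have hz2 : d * z ≤ 1 := by
      rw [le_div_iff₀ (by positivity)] at hz1
      linarith
    constructor
    · -- lower bound
      have h3 : (2 * Real.pi * H * l * d) * (Real.log (1 + z) - z) ≥
          (2 * Real.pi * H * l * d) * (-(z ^ 2 / 2)) :=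
        mul_le_mul_of_nonneg_left (by linarith) hc0
      have h4 : (2 * Real.pi * H * l * d) * (z ^ 2 / 2) ≤ 1 := by
        have h5 : (2 * Real.pi * H * l * d) * (z ^ 2 / 2) = (Real.pi * H * l) * z * (d * z) := by ring
        rw [h5]
        have h6 : (Real.pi * H * l) * z ≤ 1 := by
          calc (Real.pi * H * l) * z ≤ d * z := mul_le_mul_of_nonneg_right hl hz0
            _ ≤ 1 := hz2
        have h7 : 0 ≤ (Real.pi * H * l) * z := by positivity
        have h8 : 0 ≤ d * z := by positivity
        nlinarith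
      have h9 : 0 ≤ v * Real.log (1 + z) := mul_nonneg hv0 hlog0
      nlinarith
    · have h3 : (2 * Real.pi * H * l * d) * (Real.log (1 + z) - z) ≤ 0 :=
        mul_nonpos_of_nonneg_of_nonpos hc0 (by linarith)
      have h4 : v * Real.log (1 + z) ≤ 1 := by
        calc v * Real.log (1 + z) ≤ d * z := mul_le_mul hv hup hlog0 (by positivity)
          _ ≤ 1 := hz2
      linarith

/-- signs making the norm of a signed sum large (parallelogram law, one vector at a time). -/
lemma exists_signs {ι κ : Type*} [DecidableEq ι] (s : Finset ι) (T : Finset κ) (z : ι → κ → ℂ) :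
    ∃ ε : ι → ℝ, (∀ i, ε i = 1 ∨ ε i = -1) ∧
      ∑ i ∈ s, ∑ t ∈ T, ‖z i t‖ ^ 2 ≤ ∑ t ∈ T, ‖∑ i ∈ s, (ε i : ℂ) * z i t‖ ^ 2 := by
  classical
  induction s using Finset.induction_on with
  | empty => exact ⟨fun _ => 1, fun _ => Or.inl rfl, by simp⟩
  | insert a s ha ih =>
    obtain ⟨ε, hε, hs⟩ := ih
    -- inner product
    set w : κ → ℂ := fun t => ∑ i ∈ s, (ε i : ℂ) * z i t with hw
    set c : ℝ := ∑ t ∈ T, (w t * (starRingEnd ℂ) (z a t)).re with hc
    set e : ℝ := if 0 ≤ c then 1 else -1 with he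
    have he1 : e = 1 ∨ e = -1 := by
      rw [he]; split_ifs <;> simp
    have hec : 0 ≤ e * c := by
      rw [he]; split_ifs with h
      · linarith
      · push Not at h; linarith
    refine ⟨Function.update ε a e, ?_, ?_⟩
    · intro i
      by_cases hi : i = a
      · subst hi; simpa using he1
      · rw [Function.update_of_ne hi]; exact hε i
    · rw [Finset.sum_insert ha]
      have h1 : ∀ t, ∑ i ∈ insert a s, ((Function.update ε a e i : ℝ) : ℂ) * z i t
          = (e : ℂ) * z a t + w t := by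
        intro t
        rw [Finset.sum_insert ha, Function.update_self, hw]
        congr 1
        apply Finset.sum_congr rfl
        intro i hi
        rw [Function.update_of_ne (by rintro rfl; exact ha hi)]
      have h2 : ∀ t, ‖(e : ℂ) * z a t + w t‖ ^ 2
          = ‖z a t‖ ^ 2 + ‖w t‖ ^ 2 + 2 * e * (w t * (starRingEnd ℂ) (z a t)).re := by
        intro t
        have he2 : e ^ 2 = 1 := by rcases he1 with h | h <;> rw [h] <;> norm_num
        rw [← Complex.normSq_eq_norm_sq, ← Complex.normSq_eq_norm_sq, ← Complex.normSq_eq_norm_sq]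
        simp only [Complex.normSq_apply, Complex.add_re, Complex.add_im, Complex.mul_re,
          Complex.mul_im, Complex.ofReal_re, Complex.ofReal_im, Complex.conj_re, Complex.conj_im]
        linear_combination ((z a t).re ^ 2 + (z a t).im ^ 2) * he2
      simp_rw [h1, h2]
      rw [Finset.sum_add_distrib, Finset.sum_add_distrib, ← Finset.mul_sum]
      have h3 : 0 ≤ 2 * e * ∑ t ∈ T, (w t * (starRingEnd ℂ) (z a t)).re := by
        rw [← hc]; nlinarith
      linarith

end Pool.Agent.H466R2.LVBlock
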