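import Mathlib

set_option autoImplicit false

namespace Pool.Agent.H466R2.LVRes

open Finset

/-- values of `l d - d^2` modulo an odd prime: at most `(p+1)/2` of them. -/
lemma card_image_quad (p : ℕ) [hp : Fact p.Prime] (hp2 : p ≠ 2) (l : ZMod p) :
    2 * ((Finset.univ.image (fun d : ZMod p => l * d - d ^ 2)).card) ≤ p + 1 := by
  classical
  have h2 : (2 : ZMod p) ≠ 0 := by
    intro h
    have h' : ((2 : ℕ) : ZMod p) = 0 := by exact_mod_cast h
    rw [ZMod.natCast_eq_zero_iff] at h'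
    exact hp2 ((Nat.prime_dvd_prime_iff_eq hp.out Nat.prime_two).1 h')
  set f : ZMod p → ZMod p := fun d => l * d - d ^ 2 with hf
  have hsym : ∀ d, f (l - d) = f d := by
    intro d; simp only [hf]; ring
  set d0 : ZMod p := l / 2 with hd0
  have hne : ∀ d, d ≠ d0 → l - d ≠ d := by
    intro d hd h
    apply hd
    rw [hd0, eq_div_iff h2]
    linear_combination (-1 : ZMod p) * h
  have hne0 : ∀ d, d ≠ d0 → l - d ≠ d0 := by
    intro d hd h
    apply hd
    have : d = l - d0 := by linear_combination (-1 : ZMod p) * h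
    rw [this, hd0]
    field_simp
    ring
  -- the punctured set
  set s : Finset (ZMod p) := Finset.univ.erase d0 with hs
  have hscard : s.card = p - 1 := by
    rw [hs, Finset.card_erase_of_mem (Finset.mem_univ _), Finset.card_univ, ZMod.card]
  have h1 : 2 * (s.image f).card ≤ s.card := by
    apply Finset.mul_card_image_le_card (s := s) (f := f) 2
    intro b hb
    obtain ⟨d, hd, rfl⟩ := Finset.mem_image.1 hb
    have hdne : d ≠ d0 := (Finset.mem_erase.1 hd).1
    have hsub : ({d, l - d} : Finset (ZMod p)) ⊆ s.filter (fun a => f a = f d) := by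
      intro x hx
      rcases Finset.mem_insert.1 hx with rfl | hx
      · exact Finset.mem_filter.2 ⟨hd, rfl⟩
      · rw [Finset.mem_singleton] at hx
        subst hx
        exact Finset.mem_filter.2 ⟨Finset.mem_erase.2 ⟨hne0 d hdne, Finset.mem_univ _⟩, hsym d⟩
    have hcard : ({d, l - d} : Finset (ZMod p)).card = 2 := by
      rw [Finset.card_pair]
      exact fun h => hne d hdne h.symm
    calc 2 = ({d, l - d} : Finset (ZMod p)).card := hcard.symm
      _ ≤ _ := Finset.card_le_card hsub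
  have h2' : (Finset.univ.image f) ⊆ insert (f d0) (s.image f) := by
    intro x hx
    obtain ⟨d, -, rfl⟩ := Finset.mem_image.1 hx
    by_cases h : d = d0
    · subst h; exact Finset.mem_insert_self _ _
    · exact Finset.mem_insert_of_mem (Finset.mem_image_of_mem _ (Finset.mem_erase.2 ⟨h, Finset.mem_univ _⟩))
  have h3 : (Finset.univ.image f).card ≤ (s.image f).card + 1 :=
    (Finset.card_le_card h2').trans (Finset.card_insert_le _ _)
  have hp1 : 1 ≤ p := hp.out.one_lt.le
  omega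

open Classical in
/-- residues mod `p` attained by `l d - d^2`, as a set of naturals `< p`. -/
noncomputable def V (p l : ℕ) : Finset ℕ :=
  (Finset.range p).filter (fun r => ∃ d : ℕ, (r : ℤ) ≡ (l : ℤ) * d - (d : ℤ) ^ 2 [ZMOD p])

lemma card_V (p l : ℕ) (hp : p.Prime) (hp2 : p ≠ 2) : 2 * (V p l).card ≤ p + 1 := by
  classical
  have : Fact p.Prime := ⟨hp⟩
  refine le_trans ?_ (card_image_quad p hp2 (l : ZMod p))
  apply Nat.mul_le_mul_left
  apply Finset.card_le_card_of_injOn (fun r : ℕ => (r : ZMod p))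
  · intro r hr
    rw [Finset.mem_coe, V, Finset.mem_filter] at hr
    obtain ⟨-, d, hd⟩ := hr
    rw [Finset.mem_coe, Finset.mem_image]
    refine ⟨(d : ZMod p), Finset.mem_univ _, ?_⟩
    have := (ZMod.intCast_eq_intCast_iff _ _ _).2 hd
    push_cast at this
    simpa using this.symm
  · intro r hr r' hr' h
    rw [Finset.mem_coe, V, Finset.mem_filter, Finset.mem_range] at hr hr'
    have h' := (ZMod.natCast_eq_natCast_iff _ _ _).1 h
    exact Nat.ModEq.eq_of_lt_of_lt h' hr.1 hr'.1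

/-- residues mod `M = ∏ p` whose reductions mod each `p` are of the form `l d - d^2`. -/
noncomputable def R (P : Finset ℕ) (l : ℕ) : Finset ℕ :=
  (Finset.range (∏ p ∈ P, p)).filter (fun r => ∀ p ∈ P, r % p ∈ V p l)

lemma card_R (P : Finset ℕ) (hP : ∀ p ∈ P, p.Prime) (l : ℕ) :
    (R P l).card ≤ ∏ p ∈ P, (V p l).card := by
  classical
  rw [← Finset.card_pi]
  apply Finset.card_le_card_of_injOn (fun r : ℕ => fun p _ => r % p)
  · intro r hr
    rw [Finset.mem_coe, R, Finset.mem_filter] at hr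
    rw [Finset.mem_coe, Finset.mem_pi]
    intro p hp
    exact hr.2 p hp
  · intro r hr r' hr' h
    rw [Finset.mem_coe, R, Finset.mem_filter, Finset.mem_range] at hr hr'
    have hcong : ∀ p ∈ P, r ≡ r' [MOD p] := by
      intro p hp
      have := congrFun (congrFun h p) hp
      exact this
    have hdvd : ((∏ p ∈ P, p : ℕ) : ℤ) ∣ (r' : ℤ) - r := by
      rw [Nat.cast_prod]
      apply Finset.prod_dvd_of_coprime
      · intro p hp q hq hpq
        have := (Nat.coprime_primes (hP p hp) (hP q hq)).2 hpq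
        exact Nat.isCoprime_iff_coprime.2 this
      · intro p hp
        exact (Nat.modEq_iff_dvd.1 (hcong p hp))
    have := (Nat.modEq_iff_dvd (n := ∏ p ∈ P, p) (a := r) (b := r')).2 hdvd
    exact Nat.ModEq.eq_of_lt_of_lt this hr.1 hr'.1

lemma card_R_real (P : Finset ℕ) (hP : ∀ p ∈ P, p.Prime) (hP2 : ∀ p ∈ P, p ≠ 2) (l : ℕ) :
    ((R P l).card : ℝ) ≤ (2 / 3 : ℝ) ^ P.card * (∏ p ∈ P, p : ℕ) := by
  have h1 : ((R P l).card : ℝ) ≤ ((∏ p ∈ P, (V p l).card : ℕ) : ℝ) := by
    exact_mod_cast card_R P hP l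
  refine h1.trans ?_
  push_cast
  have h2 : (2 / 3 : ℝ) ^ P.card * ∏ p ∈ P, (p : ℝ) = ∏ p ∈ P, ((2 / 3 : ℝ) * p) := by
    rw [Finset.prod_mul_distrib, Finset.prod_const]
  rw [h2]
  apply Finset.prod_le_prod
  · intro p _; positivity
  · intro p hp
    have h3 := card_V p l (hP p hp) (hP2 p hp)
    have h4 : (2 : ℝ) * (V p l).card ≤ p + 1 := by exact_mod_cast h3
    have h5 : 3 ≤ p := by
      have := (hP p hp).two_le
      have := hP2 p hp
      omega
    have h6 : (3 : ℝ) ≤ p := by exact_mod_cast h5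
    linarith

/-- the number of `m < K` with `m mod M ∈ R`. -/
lemma card_lift (M K : ℕ) (S : Finset ℕ) :
    ((Finset.range K).filter (fun m => m % M ∈ S)).card ≤ S.card * (K / M + 1) := by
  classical
  rw [← Finset.card_range (K / M + 1), ← Finset.card_product]
  apply Finset.card_le_card_of_injOn (fun m : ℕ => (m % M, m / M))
  · intro m hm
    rw [Finset.mem_coe, Finset.mem_filter, Finset.mem_range] at hm
    rw [Finset.mem_coe, Finset.mem_product]
    refine ⟨hm.2, ?_⟩
    rw [Finset.mem_range]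
    exact Nat.lt_succ_of_le (Nat.div_le_div_right hm.1.le)
  · intro m _ m' _ h
    have h1 : m % M = m' % M := congrArg Prod.fst h
    have h2 : m / M = m' / M := congrArg Prod.snd h
    rw [← Nat.div_add_mod m M, ← Nat.div_add_mod m' M, h1, h2]

/-- start points: `tau d ≡ - d^2 mod M`, `0 ≤ tau d < M`. -/
def tau (M d : ℕ) : ℕ := (M - (d ^ 2 % M)) % M

lemma tau_lt (M d : ℕ) (hM : 0 < M) : tau M d < M := Nat.mod_lt _ hM

lemma tau_modEq (M d : ℕ) (hM : 0 < M) : ((tau M d : ℕ) : ℤ) ≡ - (d : ℤ) ^ 2 [ZMOD M] := by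
  unfold tau
  have hle : d ^ 2 % M ≤ M := (Nat.mod_lt _ hM).le
  rw [Int.natCast_mod, Nat.cast_sub hle]
  have h1 : ((M : ℤ) - ((d ^ 2 % M : ℕ) : ℤ)) % (M : ℤ) ≡ (M : ℤ) - ((d ^ 2 % M : ℕ) : ℤ) [ZMOD M] :=
    Int.mod_modEq _ _
  refine h1.trans ?_
  have h2 : ((d ^ 2 % M : ℕ) : ℤ) ≡ (d : ℤ) ^ 2 [ZMOD M] := by
    push_cast
    exact Int.mod_modEq _ _
  have h3 : (M : ℤ) ≡ 0 [ZMOD M] := by
    rw [Int.modEq_zero_iff_dvd]
  have := h3.sub h2
  simpa using this

/-- the set of all points of the progressions `tau d + l d`, `l < L`, `d < Q`. -/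
noncomputable def A (M L Q : ℕ) : Finset ℕ :=
  (Finset.range L).biUnion (fun l => (Finset.range Q).image (fun d => tau M d + l * d))

lemma mem_A (M L Q d l : ℕ) (hd : d < Q) (hl : l < L) : tau M d + l * d ∈ A M L Q := by
  unfold A
  rw [Finset.mem_biUnion]
  exact ⟨l, Finset.mem_range.2 hl, Finset.mem_image.2 ⟨d, Finset.mem_range.2 hd, rfl⟩⟩

lemma lt_of_mem_A (M L Q m : ℕ) (hM : 0 < M) (hm : m ∈ A M L Q) : m < M + L * Q := by
  unfold A at hm
  rw [Finset.mem_biUnion] at hm
  obtain ⟨l, hl, hm⟩ := hm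
  obtain ⟨d, hd, rfl⟩ := Finset.mem_image.1 hm
  rw [Finset.mem_range] at hl hd
  have h1 := tau_lt M d hM
  have h2 : l * d ≤ L * Q := Nat.mul_le_mul hl.le hd.le
  omega

lemma tau_mod_mem_R (P : Finset ℕ) (hP : ∀ p ∈ P, p.Prime) (d l : ℕ) :
    (tau (∏ p ∈ P, p) d + l * d) % (∏ p ∈ P, p) ∈ R P l := by
  classical
  have hM : 0 < ∏ p ∈ P, p := Finset.prod_pos (fun p hp => (hP p hp).pos)
  unfold R
  rw [Finset.mem_filter, Finset.mem_range]
  refine ⟨Nat.mod_lt _ hM, ?_⟩
  intro p hp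
  have hpd : p ∣ ∏ p ∈ P, p := Finset.dvd_prod_of_mem _ hp
  unfold V
  rw [Finset.mem_filter, Finset.mem_range]
  refine ⟨Nat.mod_lt _ (hP p hp).pos, d, ?_⟩
  rw [Nat.mod_mod_of_dvd _ hpd]
  have h1 : (((tau (∏ p ∈ P, p) d + l * d) % p : ℕ) : ℤ) ≡
      ((tau (∏ p ∈ P, p) d + l * d : ℕ) : ℤ) [ZMOD p] := by
    push_cast
    exact Int.mod_modEq _ _
  refine h1.trans ?_
  have h2 : ((tau (∏ p ∈ P, p) d : ℕ) : ℤ) ≡ - (d : ℤ) ^ 2 [ZMOD p] :=
    (tau_modEq _ d hM).of_dvd (by exact_mod_cast hpd)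
  push_cast
  have h3 := h2.add_right ((l : ℤ) * d)
  refine h3.trans ?_
  have : -(d : ℤ) ^ 2 + l * d = l * d - (d : ℤ) ^ 2 := by ring
  rw [this]

lemma card_A (P : Finset ℕ) (hP : ∀ p ∈ P, p.Prime) (hP2 : ∀ p ∈ P, p ≠ 2) (L Q : ℕ)
    (hL : 1 ≤ L) (hQ : (∏ p ∈ P, p) ≤ Q) :
    ((A (∏ p ∈ P, p) L Q).card : ℝ) ≤ 3 * (L : ℝ) ^ 2 * (2 / 3 : ℝ) ^ P.card * Q := by
  classical
  set M := ∏ p ∈ P, p with hMdef
  have hM : 0 < M := Finset.prod_pos (fun p hp => (hP p hp).pos)
  have h1 : ∀ l ∈ Finset.range L,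
      (((Finset.range Q).image (fun d => tau M d + l * d)).card : ℝ) ≤
        3 * L * (2 / 3 : ℝ) ^ P.card * Q := by
    intro l hl
    rw [Finset.mem_range] at hl
    have hsub : (Finset.range Q).image (fun d => tau M d + l * d) ⊆
        (Finset.range (M + l * Q)).filter (fun m => m % M ∈ R P l) := by
      intro m hm
      obtain ⟨d, hd, rfl⟩ := Finset.mem_image.1 hm
      rw [Finset.mem_range] at hd
      rw [Finset.mem_filter, Finset.mem_range]
      refine ⟨?_, tau_mod_mem_R P hP d l⟩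
      have h1 := tau_lt M d hM
      have h2 : l * d ≤ l * Q := Nat.mul_le_mul_left _ hd.le
      omega
    have h2 := (Finset.card_le_card hsub).trans (card_lift M (M + l * Q) (R P l))
    have h3 : (((Finset.range Q).image (fun d => tau M d + l * d)).card : ℝ) ≤
        ((R P l).card : ℝ) * (((M + l * Q) / M + 1 : ℕ) : ℝ) := by
      exact_mod_cast h2
    have h4 := card_R_real P hP hP2 l
    have h5 : (((M + l * Q) / M + 1 : ℕ) : ℝ) ≤ ((M : ℝ) + l * Q) / M + 1 := by
      push_cast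
      have := @Nat.cast_div_le ℝ _ _ _ (M + l * Q) M
      push_cast at this
      linarith
    have hMpos : (0 : ℝ) < M := by exact_mod_cast hM
    have hq0 : (0 : ℝ) ≤ (2 / 3 : ℝ) ^ P.card := by positivity
    have hQ' : (M : ℝ) ≤ Q := by exact_mod_cast hQ
    have hl' : (l : ℝ) + 1 ≤ L := by exact_mod_cast hl
    have hL' : (1 : ℝ) ≤ L := by exact_mod_cast hL
    calc (((Finset.range Q).image (fun d => tau M d + l * d)).card : ℝ)
        ≤ ((R P l).card : ℝ) * (((M + l * Q) / M + 1 : ℕ) : ℝ) := h3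
      _ ≤ ((2 / 3 : ℝ) ^ P.card * M) * (((M : ℝ) + l * Q) / M + 1) := by
          apply mul_le_mul h4 h5 (by positivity) (by positivity)
      _ = (2 / 3 : ℝ) ^ P.card * (2 * M + l * Q) := by
          field_simp
          ring
      _ ≤ (2 / 3 : ℝ) ^ P.card * (3 * L * Q) := by
          apply mul_le_mul_of_nonneg_left _ hq0
          nlinarith
      _ = 3 * L * (2 / 3 : ℝ) ^ P.card * Q := by ring
  unfold A
  have h6 : (((Finset.range L).biUnion (fun l => (Finset.range Q).image (fun d => tau M d + l * d))).card : ℝ)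
      ≤ ∑ l ∈ Finset.range L, (((Finset.range Q).image (fun d => tau M d + l * d)).card : ℝ) := by
    exact_mod_cast Finset.card_biUnion_le
  refine h6.trans ((Finset.sum_le_sum h1).trans ?_)
  rw [Finset.sum_const, Finset.card_range, nsmul_eq_mul]
  apply le_of_eq
  ring

end Pool.Agent.H466R2.LVRes
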