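import Mathlib
import Pool.Agent.H466R2.LVRes
import Pool.Agent.H466R2.LVBlock

set_option autoImplicit false

namespace Pool.Agent.H466R2.LVCore

open Finset Complex
open Pool.Agent.H466R2.LVRes Pool.Agent.H466R2.LVBlock

lemma sum_Ico_blocks {E : Type*} [AddCommMonoid E] (f : ℕ → E) (H a b : ℕ) (hab : a ≤ b) :
    ∑ n ∈ Finset.Ico (a * H) (b * H), f n
      = ∑ d ∈ Finset.Ico a b, ∑ h ∈ Finset.range H, f (d * H + h) := by
  induction b, hab using Nat.le_induction with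
  | base => simp
  | succ b hab ih =>
    rw [Finset.sum_Ico_succ_top hab, ← ih]
    have h1 : a * H ≤ b * H := Nat.mul_le_mul_right _ hab
    have h2 : b * H ≤ (b + 1) * H := Nat.mul_le_mul_right _ (Nat.le_succ _)
    rw [← Finset.sum_Ico_consecutive f h1 h2]
    congr 1
    rw [Finset.sum_Ico_eq_sum_range]
    have h3 : (b + 1) * H - b * H = H := by
      rw [Nat.add_mul, one_mul, Nat.add_sub_cancel_left]
    rw [h3]

/-- the coefficients -/
noncomputable def coef (M H Q : ℕ) (ε : ℕ → ℝ) (n : ℕ) : ℂ :=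
  if Q ≤ n / H ∧ n / H < 2 * Q then
    (ε (n / H) : ℂ) * Complex.exp (Complex.I *
      ((-(2 * Real.pi * H * tau M (n / H)) * Real.log (n : ℝ) : ℝ) : ℂ))
  else 0

lemma norm_coef_le (M H Q : ℕ) (ε : ℕ → ℝ) (hε : ∀ i, ε i = 1 ∨ ε i = -1) (n : ℕ) :
    ‖coef M H Q ε n‖ ≤ 1 := by
  unfold coef
  split_ifs with h
  · rw [norm_mul, mul_comm Complex.I, Complex.norm_exp_ofReal_mul_I, mul_one, Complex.norm_real,
      Real.norm_eq_abs]
    rcases hε (n / H) with h | h <;> rw [h] <;> norm_num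
  · simp

/-- block sums -/
noncomputable def Z (M H d : ℕ) (t : ℝ) : ℂ :=
  ∑ h ∈ Finset.range H, Complex.exp (Complex.I *
    (((t - 2 * Real.pi * H * tau M d) * Real.log ((d * H + h : ℕ) : ℝ) : ℝ) : ℂ))

lemma sum_coef (M H Q N : ℕ) (hH : 1 ≤ H) (hQ : 1 ≤ Q) (hN : 2 * Q * H ≤ N) (ε : ℕ → ℝ) (t : ℝ) :
    ∑ n ∈ Finset.Icc 1 N, coef M H Q ε n *
        Complex.exp (Complex.I * (t : ℂ) * (Real.log (n : ℝ) : ℂ))
      = ∑ d ∈ Finset.Ico Q (2 * Q), (ε d : ℂ) * Z M H d t := by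
  set f : ℕ → ℂ := fun n => coef M H Q ε n *
        Complex.exp (Complex.I * (t : ℂ) * (Real.log (n : ℝ) : ℂ)) with hf
  have h1 : ∑ n ∈ Finset.Icc 1 N, f n = ∑ n ∈ Finset.Ico (Q * H) (2 * Q * H), f n := by
    symm
    apply Finset.sum_subset
    · intro n hn
      rw [Finset.mem_Ico] at hn
      rw [Finset.mem_Icc]
      have : 1 ≤ Q * H := Nat.mul_pos hQ hH
      omega
    · intro n _ hn
      rw [Finset.mem_Ico, not_and_or, not_le, not_lt] at hn
      have : ¬ (Q ≤ n / H ∧ n / H < 2 * Q) := by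
        rintro ⟨h1, h2⟩
        rw [Nat.le_div_iff_mul_le (by omega)] at h1
        rw [Nat.div_lt_iff_lt_mul (by omega)] at h2
        omega
      simp only [hf, coef, if_neg this, zero_mul]
  rw [h1, sum_Ico_blocks f H Q (2 * Q) (by omega)]
  apply Finset.sum_congr rfl
  intro d hd
  rw [Finset.mem_Ico] at hd
  rw [Z, Finset.mul_sum]
  apply Finset.sum_congr rfl
  intro h hh
  rw [Finset.mem_range] at hh
  have hdiv : (d * H + h) / H = d := by
    rw [mul_comm, Nat.mul_add_div (by omega), Nat.div_eq_of_lt hh, add_zero]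
  simp only [hf, coef, hdiv, if_pos hd]
  rw [mul_assoc, ← Complex.exp_add]
  congr 2
  push_cast
  ring

/-- the (integer) points -/
noncomputable def pts (M H L Q : ℕ) : Finset ℕ :=
  ((A M L (2 * Q)) ×ˢ (Finset.range Q)).image
    (fun x => ⌈2 * Real.pi * H * (x.1 : ℝ)⌉₊ + x.2)

lemma card_pts (M H L Q : ℕ) : (pts M H L Q).card ≤ (A M L (2 * Q)).card * Q := by
  unfold pts
  refine Finset.card_image_le.trans ?_
  rw [Finset.card_product, Finset.card_range]

lemma pts_le (M H L Q n : ℕ) (hM : 0 < M) (hn : n ∈ pts M H L Q) :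
    (n : ℝ) ≤ 2 * Real.pi * H * (M + 2 * L * Q) + Q := by
  unfold pts at hn
  obtain ⟨⟨m, j⟩, hx, rfl⟩ := Finset.mem_image.1 hn
  rw [Finset.mem_product, Finset.mem_range] at hx
  have h1 := lt_of_mem_A M L (2 * Q) m hM hx.1
  have h2 : (m : ℝ) ≤ M + 2 * L * Q := by
    have : m ≤ M + 2 * L * Q := by
      have : L * (2 * Q) = 2 * L * Q := by ring
      omega
    exact_mod_cast this
  have h3 : (j : ℝ) + 1 ≤ Q := by exact_mod_cast hx.2
  have hpi := Real.pi_pos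
  have h4 : 2 * Real.pi * H * (m : ℝ) ≤ 2 * Real.pi * H * (M + 2 * L * Q) :=
    mul_le_mul_of_nonneg_left h2 (by positivity)
  have h5 := Nat.ceil_lt_add_one (show 0 ≤ 2 * Real.pi * H * (m : ℝ) by positivity)
  push_cast
  linarith

lemma block_mass (M H L Q d : ℕ) (hH : 1 ≤ H) (hQ : Q = 4 * H * L) (hL : 1 ≤ L)
    (hd1 : Q ≤ d) (hd2 : d < 2 * Q) :
    (L : ℝ) * Q * ((H : ℝ) / 2) ^ 2 ≤ ∑ n ∈ pts M H L Q, ‖Z M H d (n : ℝ)‖ ^ 2 := by
  classical
  have hpi := Real.pi_pos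
  have hpi3 := Real.pi_gt_three
  have hpi4 := Real.pi_le_four
  have hQ1 : 1 ≤ Q := by
    rw [hQ]
    have := Nat.mul_pos (Nat.mul_pos (by norm_num : 0 < 4) hH) hL
    omega
  have hHr : (1 : ℝ) ≤ H := by exact_mod_cast hH
  have hQr : (1 : ℝ) ≤ Q := by exact_mod_cast hQ1
  have hdr : (Q : ℝ) ≤ d := by exact_mod_cast hd1
  set g : ℕ × ℕ → ℕ := fun x => ⌈2 * Real.pi * H * ((tau M d + x.1 * d : ℕ) : ℝ)⌉₊ + x.2 with hg
  have hinj : Set.InjOn g ((Finset.range L ×ˢ Finset.range Q : Finset (ℕ × ℕ)) : Set (ℕ × ℕ)) := by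
    have hlt : ∀ l l' j j' : ℕ, l < l' → j < Q → g (l, j) < g (l', j') := by
      intro l l' j j' hll hj
      simp only [hg]
      have h1 := Nat.ceil_lt_add_one
        (show 0 ≤ 2 * Real.pi * H * ((tau M d + l * d : ℕ) : ℝ) by positivity)
      have h2 := Nat.le_ceil (2 * Real.pi * H * ((tau M d + l' * d : ℕ) : ℝ))
      have h3 : (j : ℝ) + 1 ≤ Q := by exact_mod_cast hj
      have h4 : 2 * Real.pi * H * ((tau M d + l * d : ℕ) : ℝ) + Q ≤
          2 * Real.pi * H * ((tau M d + l' * d : ℕ) : ℝ) := by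
        have h5 : (l : ℝ) + 1 ≤ l' := by exact_mod_cast hll
        push_cast
        have h6 : (Q : ℝ) ≤ 2 * Real.pi * H * d := by
          have : (1 : ℝ) ≤ 2 * Real.pi * H := by nlinarith
          nlinarith
        have h7 : 2 * Real.pi * H * d * (l + 1) ≤ 2 * Real.pi * H * d * l' :=
          mul_le_mul_of_nonneg_left h5 (by positivity)
        nlinarith
      have h8 : ((⌈2 * Real.pi * H * ((tau M d + l * d : ℕ) : ℝ)⌉₊ + j : ℕ) : ℝ) <
          ((⌈2 * Real.pi * H * ((tau M d + l' * d : ℕ) : ℝ)⌉₊ + j' : ℕ) : ℝ) := by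
        have h9 : (0 : ℝ) ≤ j' := Nat.cast_nonneg _
        push_cast at *
        linarith
      exact_mod_cast h8
    rintro ⟨l, j⟩ hx ⟨l', j'⟩ hx' heq
    rw [Finset.mem_coe, Finset.mem_product, Finset.mem_range, Finset.mem_range] at hx hx'
    rcases lt_trichotomy l l' with h | h | h
    · exact absurd heq (hlt l l' j j' h hx.2).ne
    · subst h
      simp only [hg, add_right_inj] at heq
      rw [heq]
    · exact absurd heq (hlt l' l j' j h hx'.2).ne'
  have hsub : (Finset.range L ×ˢ Finset.range Q).image g ⊆ pts M H L Q := by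
    intro n hn
    obtain ⟨⟨l, j⟩, hx, rfl⟩ := Finset.mem_image.1 hn
    rw [Finset.mem_product, Finset.mem_range, Finset.mem_range] at hx
    unfold pts
    refine Finset.mem_image.2 ⟨(tau M d + l * d, j), ?_, rfl⟩
    rw [Finset.mem_product, Finset.mem_range]
    exact ⟨mem_A M L (2 * Q) d l hd2 hx.1, hx.2⟩
  calc (L : ℝ) * Q * ((H : ℝ) / 2) ^ 2
      = ∑ x ∈ Finset.range L ×ˢ Finset.range Q, ((H : ℝ) / 2) ^ 2 := by
        rw [Finset.sum_const, Finset.card_product, Finset.card_range, Finset.card_range,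
          nsmul_eq_mul]
        push_cast
        ring
    _ ≤ ∑ x ∈ Finset.range L ×ˢ Finset.range Q, ‖Z M H d (g x : ℝ)‖ ^ 2 := by
        apply Finset.sum_le_sum
        rintro ⟨l, j⟩ hx
        rw [Finset.mem_product, Finset.mem_range, Finset.mem_range] at hx
        obtain ⟨hl, hj⟩ := hx
        simp only at hl hj
        apply pow_le_pow_left₀ (by positivity)
        set x0 : ℝ := 2 * Real.pi * H * ((tau M d + l * d : ℕ) : ℝ) with hx0
        have hx00 : 0 ≤ x0 := by positivity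
        set v : ℝ := (⌈x0⌉₊ : ℝ) - x0 + j with hv
        have hv0 : 0 ≤ v := by
          have := Nat.le_ceil x0
          have h9 : (0 : ℝ) ≤ j := Nat.cast_nonneg _
          rw [hv]; linarith
        have hv1 : v ≤ d := by
          have h1 := Nat.ceil_lt_add_one hx00
          have h3 : (j : ℝ) + 1 ≤ Q := by exact_mod_cast hj
          rw [hv]; linarith
        have hl1 : Real.pi * H * l ≤ d := by
          have h1 : (l : ℝ) ≤ L := by exact_mod_cast hl.le
          have h2 : (Q : ℝ) = 4 * H * L := by rw [hQ]; push_cast; ring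
          have h3 : Real.pi * H * l ≤ 4 * H * L := by
            have h4 : Real.pi * H ≤ 4 * H := by nlinarith
            have h5 : (0 : ℝ) ≤ l := Nat.cast_nonneg _
            calc Real.pi * H * l ≤ 4 * H * l := mul_le_mul_of_nonneg_right h4 h5
              _ ≤ 4 * H * L := mul_le_mul_of_nonneg_left h1 (by positivity)
          linarith
        have := block_lower H d l v hH (le_trans hQ1 hd1) hv0 hv1 hl1
        unfold Z
        have hgx : ((g (l, j) : ℕ) : ℝ) - 2 * Real.pi * H * tau M d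
            = 2 * Real.pi * H * l * d + v := by
          simp only [hg]
          push_cast
          rw [hv, hx0]
          push_cast
          ring
        rw [hgx]
        exact this
    _ = ∑ n ∈ (Finset.range L ×ˢ Finset.range Q).image g, ‖Z M H d (n : ℝ)‖ ^ 2 := by
        rw [Finset.sum_image hinj]
    _ ≤ ∑ n ∈ pts M H L Q, ‖Z M H d (n : ℝ)‖ ^ 2 :=
        Finset.sum_le_sum_of_subset_of_nonneg hsub (fun _ _ _ => by positivity)

/-- Core construction. -/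
theorem core (P : Finset ℕ) (hP : ∀ p ∈ P, p.Prime) (hP2 : ∀ p ∈ P, p ≠ 2) (H L N : ℕ)
    (hH : 1 ≤ H) (hL : 1 ≤ L) (hM : (∏ p ∈ P, p) ≤ 8 * H * L) (hN : 8 * H ^ 2 * L ≤ N) :
    ∃ a : ℕ → ℂ, (∀ n, ‖a n‖ ≤ 1) ∧ ∃ S : Finset ℝ,
      (∀ t ∈ S, 0 ≤ t ∧ t ≤ 200 * (H : ℝ) ^ 2 * L ^ 2) ∧
      (∀ t ∈ S, ∀ u ∈ S, t ≠ u → 1 ≤ |t - u|) ∧
      ((S.card : ℝ) ≤ 96 * (H : ℝ) ^ 2 * L ^ 4 * (2 / 3 : ℝ) ^ P.card) ∧
      (4 * (H : ℝ) ^ 4 * L ^ 3 ≤ ∑ t ∈ S, ‖∑ n ∈ Finset.Icc 1 N,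
        a n * Complex.exp (Complex.I * (t : ℂ) * (Real.log (n : ℝ) : ℂ))‖ ^ 2) := by
  classical
  set M := ∏ p ∈ P, p with hMdef
  have hM0 : 0 < M := Finset.prod_pos (fun p hp => (hP p hp).pos)
  set Q := 4 * H * L with hQ
  have hQ1 : 1 ≤ Q := by
    have := Nat.mul_pos (Nat.mul_pos (by norm_num : 0 < 4) hH) hL
    omega
  have hM2 : M ≤ 2 * Q := by rw [hQ]; linarith
  have hN2 : 2 * Q * H ≤ N := by rw [hQ]; nlinarith
  obtain ⟨ε, hε, hs⟩ := exists_signs (Finset.Ico Q (2 * Q)) (pts M H L Q)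
    (fun d n => Z M H d (n : ℝ))
  have hHr : (1 : ℝ) ≤ H := by exact_mod_cast hH
  have hLr : (1 : ℝ) ≤ L := by exact_mod_cast hL
  have hQr : (Q : ℝ) = 4 * H * L := by rw [hQ]; push_cast; ring
  refine ⟨coef M H Q ε, norm_coef_le M H Q ε hε, (pts M H L Q).map Nat.castEmbedding, ?_, ?_, ?_, ?_⟩
  · intro t ht
    obtain ⟨n, hn, rfl⟩ := Finset.mem_map.1 ht
    refine ⟨Nat.cast_nonneg _, ?_⟩
    have h1 := pts_le M H L Q n hM0 hn
    have h2 : (M : ℝ) ≤ 2 * Q := by exact_mod_cast hM2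
    have hpi := Real.pi_pos
    have hpi4 := Real.pi_le_four
    have h3 : (Nat.castEmbedding n : ℝ) = (n : ℝ) := rfl
    rw [h3]
    refine h1.trans ?_
    have h4 : 2 * Real.pi * H * (M + 2 * L * Q) ≤ 8 * H * (2 * Q + 2 * L * Q) := by
      apply mul_le_mul _ _ (by positivity) (by positivity)
      · nlinarith
      · linarith
    have h5 : (8 : ℝ) * H * (2 * Q + 2 * L * Q) + Q ≤ 200 * (H : ℝ) ^ 2 * L ^ 2 := by
      rw [hQr]
      have h6 : (H : ℝ) ≤ H ^ 2 := by nlinarith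
      have h7 : (L : ℝ) ≤ L ^ 2 := by nlinarith
      have h8 : (H : ℝ) * L ≤ H ^ 2 * L ^ 2 := mul_le_mul h6 h7 (by positivity) (by positivity)
      have h9 : (H : ℝ) ^ 2 * L ≤ H ^ 2 * L ^ 2 := mul_le_mul_of_nonneg_left h7 (by positivity)
      nlinarith
    linarith
  · intro t ht u hu htu
    obtain ⟨n, hn, rfl⟩ := Finset.mem_map.1 ht
    obtain ⟨m, hm, rfl⟩ := Finset.mem_map.1 hu
    have h3 : ∀ k : ℕ, (Nat.castEmbedding k : ℝ) = (k : ℝ) := fun k => rfl
    rw [h3, h3] at htu ⊢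
    have hne : (n : ℤ) ≠ m := by
      intro h
      apply htu
      exact_mod_cast h
    have h4 : 1 ≤ |(n : ℤ) - m| := Int.one_le_abs (sub_ne_zero.2 hne)
    have h5 : ((|(n : ℤ) - m| : ℤ) : ℝ) = |(n : ℝ) - m| := by push_cast; rfl
    rw [← h5]
    exact_mod_cast h4
  · rw [Finset.card_map]
    have h1 := card_pts M H L Q
    have h2 := card_A P hP hP2 L (2 * Q) hL hM2
    have h3 : ((pts M H L Q).card : ℝ) ≤ ((A M L (2 * Q)).card : ℝ) * Q := by exact_mod_cast h1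
    refine h3.trans ?_
    have h4 : ((A M L (2 * Q)).card : ℝ) * Q ≤
        (3 * (L : ℝ) ^ 2 * (2 / 3 : ℝ) ^ P.card * (2 * Q : ℕ)) * Q :=
      mul_le_mul_of_nonneg_right h2 (by positivity)
    refine h4.trans ?_
    push_cast
    rw [hQr]
    apply le_of_eq
    ring
  · rw [Finset.sum_map]
    have h3 : ∀ k : ℕ, (Nat.castEmbedding k : ℝ) = (k : ℝ) := fun k => rfl
    simp_rw [h3]
    have h4 : ∀ n : ℕ, ∑ m ∈ Finset.Icc 1 N, coef M H Q ε m *
        Complex.exp (Complex.I * (((n : ℝ) : ℝ) : ℂ) * (Real.log (m : ℝ) : ℂ))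
        = ∑ d ∈ Finset.Ico Q (2 * Q), (ε d : ℂ) * Z M H d (n : ℝ) := by
      intro n
      exact sum_coef M H Q N hH hQ1 hN2 ε (n : ℝ)
    have h5 : ∑ n ∈ pts M H L Q, ‖∑ m ∈ Finset.Icc 1 N, coef M H Q ε m *
        Complex.exp (Complex.I * (((n : ℝ) : ℝ) : ℂ) * (Real.log (m : ℝ) : ℂ))‖ ^ 2
        = ∑ n ∈ pts M H L Q, ‖∑ d ∈ Finset.Ico Q (2 * Q), (ε d : ℂ) * Z M H d (n : ℝ)‖ ^ 2 :=
      Finset.sum_congr rfl (fun n _ => by rw [h4 n])
    rw [h5]
    refine le_trans ?_ hs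
    have h6 : ∀ d ∈ Finset.Ico Q (2 * Q), (L : ℝ) * Q * ((H : ℝ) / 2) ^ 2 ≤
        ∑ n ∈ pts M H L Q, ‖Z M H d (n : ℝ)‖ ^ 2 := by
      intro d hd
      rw [Finset.mem_Ico] at hd
      exact block_mass M H L Q d hH hQ hL hd.1 hd.2
    have h7 := Finset.sum_le_sum h6
    rw [Finset.sum_const, Nat.card_Ico, nsmul_eq_mul] at h7
    refine le_trans (le_of_eq ?_) h7
    have h8 : 2 * Q - Q = Q := by omega
    rw [h8, hQr]
    ring

end Pool.Agent.H466R2.LVCore
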