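import Mathlib
import Pool.Agent.H466R2.LVCore

set_option autoImplicit false

namespace Pool.Agent.H466R2.LVAsym

open Finset Complex Filter
open Pool.Agent.H466R2.LVRes Pool.Agent.H466R2.LVBlock Pool.Agent.H466R2.LVCore

/-- odd primes up to `y` -/
noncomputable def oddPrimes (y : ℕ) : Finset ℕ := (Nat.primesLE y).erase 2

lemma oddPrimes_prime (y p : ℕ) (hp : p ∈ oddPrimes y) : p.Prime :=
  (Nat.mem_primesLE.1 (Finset.mem_of_mem_erase hp)).2

lemma oddPrimes_ne_two (y p : ℕ) (hp : p ∈ oddPrimes y) : p ≠ 2 := Finset.ne_of_mem_erase hp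

lemma prod_oddPrimes_le (y : ℕ) : (∏ p ∈ oddPrimes y, p) ≤ 4 ^ y := by
  refine le_trans ?_ (primorial_le_four_pow y)
  have h1 : primorial y = ∏ p ∈ Nat.primesLE y, p := by
    unfold primorial
    apply Finset.prod_congr _ (fun _ _ => rfl)
    ext p
    simp only [Finset.mem_filter, Finset.mem_range, Nat.mem_primesLE, Nat.lt_succ_iff]
  rw [h1]
  apply Finset.prod_le_prod_of_subset_of_one_le' (Finset.erase_subset _ _)
  intro p hp _
  exact (Nat.mem_primesLE.1 hp).2.one_lt.le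

lemma card_oddPrimes (y : ℕ) :
    ((y : ℝ) * Real.log 2 - Real.log (y + 1)) / Real.log y - 1 ≤ (oddPrimes y).card := by
  have h1 := Chebyshev.pi_ge y
  have h2 : (Nat.primeCounting y) ≤ (oddPrimes y).card + 1 := by
    have h3 : (Nat.primesLE y).card = Nat.primeCounting y := by
      simp [Nat.primesLE_card_eq_primeCounting]
    rw [← h3]
    unfold oddPrimes
    have := Finset.pred_card_le_card_erase (s := Nat.primesLE y) (a := 2)
    omega
  have h4 : ((Nat.primeCounting y : ℕ) : ℝ) ≤ (oddPrimes y).card + 1 := by exact_mod_cast h2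
  linarith

lemma log_add_log_le : ∀ᶠ u : ℝ in atTop, Real.log (u + 1) + Real.log u ≤ u / 100 := by
  have h1 : ∀ᶠ u : ℝ in atTop, ‖Real.log u‖ ≤ (1 / 400 : ℝ) * ‖id u‖ :=
    Real.isLittleO_log_id_atTop.bound (by norm_num)
  filter_upwards [h1, (tendsto_atTop_add_const_right atTop (1 : ℝ) tendsto_id).eventually h1,
    eventually_ge_atTop (1 : ℝ)] with u hu hu1 hu2
  simp only [id, Real.norm_eq_abs] at hu hu1
  have h3 := le_abs_self (Real.log u)
  have h4 := le_abs_self (Real.log (u + 1))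
  rw [abs_of_nonneg (by linarith : (0 : ℝ) ≤ u)] at hu
  rw [abs_of_nonneg (by linarith : (0 : ℝ) ≤ u + 1)] at hu1
  linarith

lemma card_ge : ∀ᶠ u : ℝ in atTop,
    u / (16 * Real.log u) ≤ ((oddPrimes ⌊u / 4⌋₊).card : ℝ) := by
  filter_upwards [log_add_log_le, eventually_ge_atTop (100 : ℝ)] with u hu hu100
  set y := ⌊u / 4⌋₊ with hy
  have hy1 : (y : ℝ) ≤ u / 4 := Nat.floor_le (by linarith)
  have hy2 : u / 4 < y + 1 := Nat.lt_floor_add_one _
  have hy3 : u / 8 ≤ y := by linarith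
  have hy4 : (2 : ℝ) ≤ y := by linarith
  have hlogy : 0 < Real.log y := Real.log_pos (by linarith)
  have hlogu : 0 < Real.log u := Real.log_pos (by linarith)
  have hle : Real.log y ≤ Real.log u := Real.log_le_log (by linarith) (by linarith)
  have hle1 : Real.log (y + 1) ≤ Real.log (u + 1) := Real.log_le_log (by linarith) (by linarith)
  have hlog2 := Real.log_two_gt_d9
  have h1 := card_oddPrimes y
  have hnum : u * (3 / 40) ≤ (y : ℝ) * Real.log 2 - Real.log (y + 1) := by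
    have : u / 8 * 0.6931471803 ≤ y * Real.log 2 :=
      mul_le_mul hy3 hlog2.le (by norm_num) (by linarith)
    linarith
  have h2 : u * (3 / 40) / Real.log u ≤ ((y : ℝ) * Real.log 2 - Real.log (y + 1)) / Real.log y :=
    div_le_div₀ (by linarith) hnum hlogy hle
  have h3 : u / (16 * Real.log u) ≤ u * (3 / 40) / Real.log u - 1 := by
    have h5 : u * (3 / 40) / Real.log u - 1 = (u * (3 / 40) - Real.log u) / Real.log u := by
      field_simp
    rw [h5, div_le_div_iff₀ (by positivity) hlogu]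
    have h7 : 0 ≤ Real.log (u + 1) := Real.log_nonneg (by linarith)
    have h6 : u ≤ (u * (3 / 40) - Real.log u) * 16 := by linarith
    calc u * Real.log u ≤ ((u * (3 / 40) - Real.log u) * 16) * Real.log u :=
          mul_le_mul_of_nonneg_right h6 hlogu.le
      _ = _ := by ring
  linarith

lemma tendsto_div_log : Tendsto (fun u : ℝ => u / Real.log u) atTop atTop := by
  rw [tendsto_atTop]
  intro b
  have h1 : ∀ᶠ u : ℝ in atTop, ‖Real.log u‖ ≤ (1 / (|b| + 1) : ℝ) * ‖id u‖ :=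
    Real.isLittleO_log_id_atTop.bound (by positivity)
  filter_upwards [h1, eventually_ge_atTop (3 : ℝ)] with u hu hu3
  simp only [id, Real.norm_eq_abs] at hu
  have hlogu : 0 < Real.log u := Real.log_pos (by linarith)
  rw [abs_of_nonneg (by linarith : (0 : ℝ) ≤ u), abs_of_nonneg hlogu.le] at hu
  rw [le_div_iff₀ hlogu]
  have h2 := le_abs_self b
  have h3 := abs_nonneg b
  have h4 : (|b| + 1) * Real.log u ≤ u := by
    rw [div_mul_eq_mul_div, one_mul, le_div_iff₀ (by positivity)] at hu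
    linarith
  nlinarith

/-- main numerical input, in terms of `u = log N`. -/
lemma numerics : ∀ᶠ u : ℝ in atTop,
    12 * Real.exp (1 / 1000 * u / Real.log u) ^ 5 ≤
      (3 / 2 : ℝ) ^ (oddPrimes ⌊u / 4⌋₊).card := by
  have h0 := (tendsto_atTop.1 tendsto_div_log) 200
  filter_upwards [card_ge, h0, eventually_ge_atTop (3 : ℝ)] with u hu hu1 hu3
  have hlogu : 0 < Real.log u := Real.log_pos (by linarith)
  set n := (oddPrimes ⌊u / 4⌋₊).card with hn
  have h32 : (0.4 : ℝ) ≤ Real.log (3 / 2) := by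
    have h1 := Real.one_sub_inv_le_log_of_pos (show (0 : ℝ) < (3 / 2) by norm_num)
    -- `1 - 2/3 = 1/3` is not enough; use `2x/(x+2)` with `x = 1/2`
    have h2 := Real.le_log_one_add_of_nonneg (show (0 : ℝ) ≤ 1 / 2 by norm_num)
    norm_num at h2 ⊢
    linarith
  have h12 : Real.log 12 ≤ 3 := by
    have : (12 : ℝ) ≤ Real.exp 3 := by
      have h1 := Real.exp_one_gt_d9
      have h2 : Real.exp 3 = Real.exp 1 ^ 3 := by
        rw [← Real.exp_nat_mul]; norm_num
      rw [h2]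
      have h3 : (2.7 : ℝ) ≤ Real.exp 1 := by linarith
      calc (12 : ℝ) ≤ 2.7 ^ 3 := by norm_num
        _ ≤ _ := pow_le_pow_left₀ (by norm_num) h3 3
    have h4 := Real.log_le_log (by norm_num) this
    rwa [Real.log_exp] at h4
  have h1 : (3 / 2 : ℝ) ^ n = Real.exp (n * Real.log (3 / 2)) := by
    rw [mul_comm, Real.exp_mul, Real.exp_log (by norm_num), Real.rpow_natCast]
  have h2 : (12 : ℝ) * Real.exp (1 / 1000 * u / Real.log u) ^ 5
      = Real.exp (Real.log 12 + 5 * (1 / 1000 * u / Real.log u)) := by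
    rw [Real.exp_add, Real.exp_log (by norm_num), ← Real.exp_nat_mul]
    norm_num
  rw [h1, h2]
  apply Real.exp_le_exp.2
  have h3 : u / (16 * Real.log u) = (u / Real.log u) / 16 := by
    field_simp
  rw [h3] at hu
  have h4 : 1 / 1000 * u / Real.log u = (u / Real.log u) / 1000 := by
    field_simp
  rw [h4]
  have h5 : (0 : ℝ) ≤ n := Nat.cast_nonneg _
  nlinarith

/-- The construction with all parameters chosen. -/
theorem packaged : ∃ N₀ : ℕ, ∀ N : ℕ, N₀ ≤ N → ∀ L : ℕ, 1 ≤ L →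
    (L : ℝ) ≤ Real.exp (1 / 1000 * Real.log N / Real.log (Real.log N)) →
    ∃ a : ℕ → ℂ, (∀ n, ‖a n‖ ≤ 1) ∧ ∃ S : Finset ℝ,
      (∀ t ∈ S, 0 ≤ t ∧ t ≤ 25 * (L : ℝ) * N) ∧
      (∀ t ∈ S, ∀ u ∈ S, t ≠ u → 1 ≤ |t - u|) ∧
      ((S.card : ℝ) ≤ N / Real.exp (1 / 1000 * Real.log N / Real.log (Real.log N)) ^ 2) ∧
      ((L : ℝ) * (N : ℝ) ^ 2 / 256 ≤ ∑ t ∈ S, ‖∑ n ∈ Finset.Icc 1 N,
        a n * Complex.exp (Complex.I * (t : ℂ) * (Real.log (n : ℝ) : ℂ))‖ ^ 2) := by
  have hlogN : Tendsto (fun N : ℕ => Real.log (N : ℝ)) atTop atTop :=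
    Real.tendsto_log_atTop.comp tendsto_natCast_atTop_atTop
  have hev := hlogN.eventually (numerics.and (eventually_ge_atTop (100 : ℝ)))
  obtain ⟨N₀, hN₀⟩ := eventually_atTop.1 hev
  refine ⟨max N₀ 1, fun N hN L hL hLE => ?_⟩
  obtain ⟨hnum, hu⟩ := hN₀ N (le_trans (le_max_left _ _) hN)
  have hN1 : 1 ≤ N := le_trans (le_max_right _ _) hN
  set u := Real.log (N : ℝ) with hudef
  set E := Real.exp (1 / 1000 * u / Real.log u) with hE
  have hE0 : 0 < E := Real.exp_pos _
  have hNr : (1 : ℝ) ≤ N := by exact_mod_cast hN1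
  have hLr : (1 : ℝ) ≤ L := by exact_mod_cast hL
  have hexpu : Real.exp u = N := Real.exp_log (by linarith)
  have hlogu1 : 1 ≤ Real.log u := by
    have h1 := Real.exp_one_lt_d9
    rw [Real.le_log_iff_exp_le (by linarith)]
    linarith
  -- E is small compared with N
  have hEN : 8 * E ≤ N := by
    have h1 : 1 / 1000 * u / Real.log u ≤ u / 4 := by
      rw [div_le_iff₀ (by linarith)]
      nlinarith
    have h2 : E ≤ Real.exp (u / 4) := Real.exp_le_exp.2 h1
    have h3 : (8 : ℝ) ≤ Real.exp (u / 4) := by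
      have := Real.add_one_le_exp (u / 4)
      linarith
    have h4 : Real.exp (u / 4) * Real.exp (u / 4) ≤ Real.exp u := by
      rw [← Real.exp_add]
      apply Real.exp_le_exp.2
      linarith
    have h5 := Real.exp_pos (u / 4)
    rw [← hexpu]
    nlinarith
  have hLN : 8 * (L : ℝ) ≤ N := by linarith
  set s := Real.sqrt ((N : ℝ) / (8 * L)) with hs
  have hs2 : s ^ 2 = (N : ℝ) / (8 * L) := Real.sq_sqrt (by positivity)
  have hs0 : 0 ≤ s := Real.sqrt_nonneg _
  have hs1 : 1 ≤ s := by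
    rw [hs, Real.one_le_sqrt, le_div_iff₀ (by positivity)]
    linarith
  set H := ⌊s⌋₊ with hH
  have hHs : (H : ℝ) ≤ s := Nat.floor_le hs0
  have hsH : s < H + 1 := Nat.lt_floor_add_one _
  have hH1 : 1 ≤ H := Nat.le_floor (by simpa using hs1)
  have hH1r : (1 : ℝ) ≤ H := by exact_mod_cast hH1
  have hHs2 : s / 2 ≤ H := by linarith
  have hHsq : (H : ℝ) ^ 2 ≤ (N : ℝ) / (8 * L) := by
    rw [← hs2]; exact pow_le_pow_left₀ (by linarith) hHs 2
  have hN8 : 8 * H ^ 2 * L ≤ N := by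
    have h1 : (8 : ℝ) * H ^ 2 * L ≤ N := by
      rw [le_div_iff₀ (by positivity)] at hHsq
      linarith
    exact_mod_cast h1
  set y := ⌊u / 4⌋₊ with hy
  have hM : (∏ p ∈ oddPrimes y, p) ≤ 8 * H * L := by
    have h1 : ((∏ p ∈ oddPrimes y, p : ℕ) : ℝ) ≤ (4 : ℝ) ^ y := by
      exact_mod_cast prod_oddPrimes_le y
    have hy1 : (y : ℝ) ≤ u / 4 := Nat.floor_le (by linarith)
    have h2 : (4 : ℝ) ^ y ≤ Real.exp (u / 2) := by
      have h3 : (4 : ℝ) ^ y = Real.exp (y * Real.log 4) := by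
        rw [mul_comm, Real.exp_mul, Real.exp_log (by norm_num), Real.rpow_natCast]
      rw [h3]
      apply Real.exp_le_exp.2
      have h4 : Real.log 4 ≤ 2 := by
        have h5 : (4 : ℝ) = 2 ^ 2 := by norm_num
        have h6 := Real.log_two_lt_d9
        rw [h5, Real.log_pow]
        push_cast
        linarith
      have h7 : (0 : ℝ) ≤ y := Nat.cast_nonneg _
      nlinarith
    have h3 : Real.exp (u / 2) ≤ 8 * H * L := by
      apply le_of_sq_le_sq _ (by positivity)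
      have h4 : Real.exp (u / 2) ^ 2 = N := by
        rw [← Real.exp_nat_mul, ← hexpu]
        congr 1
        push_cast
        ring
      rw [h4]
      have h5 : (s / 2) ^ 2 ≤ (H : ℝ) ^ 2 := pow_le_pow_left₀ (by positivity) hHs2 2
      have h6 : (s / 2) ^ 2 = (N : ℝ) / (32 * L) := by
        rw [div_pow, hs2]
        field_simp
        norm_num
      rw [h6, div_le_iff₀ (by positivity)] at h5
      nlinarith
    have h4 : ((∏ p ∈ oddPrimes y, p : ℕ) : ℝ) ≤ ((8 * H * L : ℕ) : ℝ) := by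
      push_cast at h1 ⊢
      linarith
    exact_mod_cast h4
  obtain ⟨a, ha, S, hS1, hS2, hS3, hS4⟩ := core (oddPrimes y) (oddPrimes_prime y)
    (oddPrimes_ne_two y) H L N hH1 hL hM hN8
  refine ⟨a, ha, S, ?_, hS2, ?_, ?_⟩
  · intro t ht
    refine ⟨(hS1 t ht).1, (hS1 t ht).2.trans ?_⟩
    rw [le_div_iff₀ (by positivity)] at hHsq
    have : (L : ℝ) * (25 * (H ^ 2 * (8 * L))) ≤ L * (25 * N) :=
      mul_le_mul_of_nonneg_left (by linarith) (by positivity)
    nlinarith
  · refine hS3.trans ?_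
    have h1 : (2 / 3 : ℝ) ^ (oddPrimes y).card = ((3 / 2 : ℝ) ^ (oddPrimes y).card)⁻¹ := by
      rw [← inv_pow]; norm_num
    rw [h1]
    have h32 : (0 : ℝ) < (3 / 2 : ℝ) ^ (oddPrimes y).card := by positivity
    rw [le_div_iff₀ (by positivity)]
    have h2 : 96 * (H : ℝ) ^ 2 * L ^ 4 ≤ 12 * N * L ^ 3 := by
      rw [le_div_iff₀ (by positivity)] at hHsq
      have : (12 * (L : ℝ) ^ 3) * (H ^ 2 * (8 * L)) ≤ (12 * (L : ℝ) ^ 3) * N :=
        mul_le_mul_of_nonneg_left hHsq (by positivity)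
      nlinarith
    have h3 : (L : ℝ) ^ 3 ≤ E ^ 3 := pow_le_pow_left₀ (by linarith) hLE 3
    have h4 : 96 * (H : ℝ) ^ 2 * L ^ 4 * E ^ 2 ≤ N * (12 * E ^ 5) := by
      calc 96 * (H : ℝ) ^ 2 * L ^ 4 * E ^ 2 ≤ (12 * N * L ^ 3) * E ^ 2 :=
            mul_le_mul_of_nonneg_right h2 (by positivity)
        _ ≤ (12 * N * E ^ 3) * E ^ 2 := by
            apply mul_le_mul_of_nonneg_right _ (by positivity)
            exact mul_le_mul_of_nonneg_left h3 (by positivity)
        _ = N * (12 * E ^ 5) := by ring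
    have h5 : N * (12 * E ^ 5) ≤ N * (3 / 2 : ℝ) ^ (oddPrimes y).card :=
      mul_le_mul_of_nonneg_left hnum (by positivity)
    calc 96 * (H : ℝ) ^ 2 * L ^ 4 * ((3 / 2 : ℝ) ^ (oddPrimes y).card)⁻¹ * E ^ 2
        = (96 * (H : ℝ) ^ 2 * L ^ 4 * E ^ 2) * ((3 / 2 : ℝ) ^ (oddPrimes y).card)⁻¹ := by ring
      _ ≤ (N * (3 / 2 : ℝ) ^ (oddPrimes y).card) * ((3 / 2 : ℝ) ^ (oddPrimes y).card)⁻¹ :=
          mul_le_mul_of_nonneg_right (h4.trans h5) (by positivity)
      _ = N := by field_simp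
  · refine le_trans ?_ hS4
    have h1 : (s / 2) ^ 4 ≤ (H : ℝ) ^ 4 := pow_le_pow_left₀ (by positivity) hHs2 4
    have h2 : (s / 2) ^ 4 = ((N : ℝ) / (8 * L)) ^ 2 / 16 := by
      have : (s / 2) ^ 4 = (s ^ 2) ^ 2 / 16 := by ring
      rw [this, hs2]
    rw [h2] at h1
    have h3 : 4 * (((N : ℝ) / (8 * L)) ^ 2 / 16) * L ^ 3 = (L : ℝ) * (N : ℝ) ^ 2 / 256 := by
      field_simp
      norm_num
    rw [← h3]
    exact mul_le_mul_of_nonneg_right (mul_le_mul_of_nonneg_left h1 (by norm_num)) (by positivity)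

end Pool.Agent.H466R2.LVAsym
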