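import Mathlib
import Pool.Agent.H466R2.LVAsym

set_option autoImplicit false

namespace Pool.Agent.H466R2.LVLevel

open Finset Complex Filter

lemma pointwise (lam x : ℝ) (K : ℕ) (hlam : 0 < lam) (hx : x < lam * 2 ^ K) :
    x ≤ lam + ∑ k ∈ Finset.range K, (if lam * 2 ^ k ≤ x then lam * 2 ^ (k + 1) else 0) := by
  have hnn : ∀ k ∈ Finset.range K, (0 : ℝ) ≤ (if lam * 2 ^ k ≤ x then lam * 2 ^ (k + 1) else 0) := by
    intro k _
    split_ifs
    · positivity
    · exact le_refl _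
  by_cases h0 : x < lam
  · have := Finset.sum_nonneg hnn
    linarith
  · push Not at h0
    have hex : ∃ k, x < lam * 2 ^ k := ⟨K, hx⟩
    classical
    set j := Nat.find hex with hj
    have hj1 : x < lam * 2 ^ j := Nat.find_spec hex
    have hjK : j ≤ K := Nat.find_min' hex hx
    have hj0 : j ≠ 0 := by
      intro h
      rw [h] at hj1
      simp at hj1
      linarith
    obtain ⟨i, hi⟩ := Nat.exists_eq_succ_of_ne_zero hj0
    have hi1 : lam * 2 ^ i ≤ x := by
      have := Nat.find_min hex (m := i) (by omega)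
      push Not at this
      exact this
    have hmem : i ∈ Finset.range K := Finset.mem_range.2 (by omega)
    have h2 := Finset.single_le_sum hnn hmem
    rw [if_pos hi1] at h2
    rw [hi] at hj1
    have h3 : (lam * 2 ^ (i + 1) : ℝ) = lam * 2 ^ (Nat.succ i) := rfl
    rw [← h3] at hj1
    linarith

lemma levels (S : Finset ℝ) (f : ℝ → ℝ) (X lam : ℝ) (K : ℕ) (hlam : 0 < lam)
    (hB : ∀ t ∈ S, f t < lam * 2 ^ K) (hX : X ≤ ∑ t ∈ S, f t) (hS : (S.card : ℝ) * lam ≤ X / 2)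
    (hX0 : 0 < X) :
    ∃ k : ℕ, X / 2 ≤ K * (lam * 2 ^ (k + 1) * ((S.filter (fun t => lam * 2 ^ k ≤ f t)).card : ℝ)) := by
  classical
  by_contra hcon
  push Not at hcon
  have h1 : ∑ t ∈ S, f t ≤ ∑ t ∈ S, (lam + ∑ k ∈ Finset.range K,
      (if lam * 2 ^ k ≤ f t then lam * 2 ^ (k + 1) else 0)) :=
    Finset.sum_le_sum (fun t ht => pointwise lam (f t) K hlam (hB t ht))
  rw [Finset.sum_add_distrib, Finset.sum_const, nsmul_eq_mul, Finset.sum_comm] at h1
  have h2 : ∀ k ∈ Finset.range K, ∑ t ∈ S, (if lam * 2 ^ k ≤ f t then lam * 2 ^ (k + 1) else 0)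
      = lam * 2 ^ (k + 1) * ((S.filter (fun t => lam * 2 ^ k ≤ f t)).card : ℝ) := by
    intro k _
    rw [← Finset.sum_filter, Finset.sum_const, nsmul_eq_mul]
    ring
  rw [Finset.sum_congr rfl h2] at h1
  rcases Nat.eq_zero_or_pos K with hK | hK
  · subst hK
    simp only [Finset.range_zero, Finset.sum_empty, add_zero] at h1
    linarith
  · have hKr : (0 : ℝ) < K := by exact_mod_cast hK
    have h3 : ∑ k ∈ Finset.range K, lam * 2 ^ (k + 1) *
        ((S.filter (fun t => lam * 2 ^ k ≤ f t)).card : ℝ) < ∑ k ∈ Finset.range K, X / (2 * K) := by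
      apply Finset.sum_lt_sum_of_nonempty
      · exact ⟨0, Finset.mem_range.2 hK⟩
      · intro k _
        rw [lt_div_iff₀ (by positivity)]
        have := hcon k
        nlinarith
    rw [Finset.sum_const, Finset.card_range, nsmul_eq_mul] at h3
    have h4 : (K : ℝ) * (X / (2 * K)) = X / 2 := by
      field_simp
    rw [h4] at h3
    linarith

/-- `exp (κ u / (2 log u))` beats `M u^2`. -/
lemma exp_beats (κ M : ℝ) (hκ : 0 < κ) (hM : 0 < M) : ∀ᶠ u : ℝ in atTop,
    M * u ^ 2 ≤ Real.exp (κ * u / (2 * Real.log u)) := by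
  have h1 : ∀ᶠ u : ℝ in atTop, ‖Real.log u ^ 3‖ ≤ (κ ^ 3 / (48 * M) : ℝ) * ‖id u‖ :=
    (Real.isLittleO_pow_log_id_atTop (n := 3)).bound (by positivity)
  filter_upwards [h1, eventually_ge_atTop (3 : ℝ)] with u hu hu3
  simp only [id, Real.norm_eq_abs] at hu
  have hlogu : 0 < Real.log u := Real.log_pos (by linarith)
  rw [abs_of_nonneg (by linarith : (0 : ℝ) ≤ u), abs_of_nonneg (by positivity)] at hu
  set x := κ * u / (2 * Real.log u) with hx
  have hx0 : 0 ≤ x := by positivity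
  have h2 : x ^ 3 / 6 ≤ Real.exp x := by
    have := Real.pow_div_factorial_le_exp x hx0 3
    have h3 : ((Nat.factorial 3 : ℕ) : ℝ) = 6 := by norm_num [Nat.factorial]
    rw [h3] at this
    exact this
  refine le_trans ?_ h2
  have h4 : x ^ 3 / 6 = κ ^ 3 * u ^ 3 / (48 * Real.log u ^ 3) := by
    rw [hx]
    field_simp
    ring
  rw [h4, le_div_iff₀ (by positivity)]
  have h5 : 48 * M * Real.log u ^ 3 ≤ κ ^ 3 * u := by
    have h6 : 48 * M * Real.log u ^ 3 ≤ 48 * M * (κ ^ 3 / (48 * M) * u) :=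
      mul_le_mul_of_nonneg_left hu (by positivity)
    have h7 : 48 * M * (κ ^ 3 / (48 * M) * u) = κ ^ 3 * u := by
      field_simp
    linarith
  have h8 : 0 ≤ u ^ 2 := by positivity
  nlinarith

lemma norm_sum_conj (a : ℕ → ℂ) (N : ℕ) (t : ℝ) :
    ‖∑ n ∈ Finset.Icc 1 N, (starRingEnd ℂ) (a n) * (n : ℂ) ^ (-((t : ℂ) * Complex.I))‖
      = ‖∑ n ∈ Finset.Icc 1 N, a n *
          Complex.exp (Complex.I * (t : ℂ) * (Real.log (n : ℝ) : ℂ))‖ := by
  have h1 : ∑ n ∈ Finset.Icc 1 N, (starRingEnd ℂ) (a n) * (n : ℂ) ^ (-((t : ℂ) * Complex.I))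
      = (starRingEnd ℂ) (∑ n ∈ Finset.Icc 1 N, a n *
          Complex.exp (Complex.I * (t : ℂ) * (Real.log (n : ℝ) : ℂ))) := by
    rw [map_sum]
    apply Finset.sum_congr rfl
    intro n hn
    rw [Finset.mem_Icc] at hn
    rw [map_mul, ← Complex.exp_conj, map_mul, map_mul, Complex.conj_I, Complex.conj_ofReal,
      Complex.conj_ofReal]
    congr 1
    have hn0 : (n : ℂ) ≠ 0 := by
      have : n ≠ 0 := by omega
      exact_mod_cast this
    rw [Complex.cpow_def_of_ne_zero hn0, ← Complex.natCast_log]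
    congr 1
    ring
  rw [h1, Complex.norm_conj]

lemma norm_D_le (a : ℕ → ℂ) (ha : ∀ n, ‖a n‖ ≤ 1) (N : ℕ) (t : ℝ) :
    ‖∑ n ∈ Finset.Icc 1 N, a n *
          Complex.exp (Complex.I * (t : ℂ) * (Real.log (n : ℝ) : ℂ))‖ ≤ N := by
  refine (norm_sum_le _ _).trans ?_
  have h1 : ∀ n ∈ Finset.Icc 1 N, ‖a n *
          Complex.exp (Complex.I * (t : ℂ) * (Real.log (n : ℝ) : ℂ))‖ ≤ 1 := by
    intro n _
    rw [norm_mul]
    have : Complex.I * (t : ℂ) * (Real.log (n : ℝ) : ℂ) = ((t * Real.log n : ℝ) : ℂ) * Complex.I := by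
      push_cast; ring
    rw [this, Complex.norm_exp_ofReal_mul_I, mul_one]
    exact ha n
  refine (Finset.sum_le_sum h1).trans ?_
  simp

end Pool.Agent.H466R2.LVLevel
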